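import Pool.Agent.Helper81.PF.C2
import Pool.Agent.Helper2.PG.Lev

/-!
Project PG (MP_b8862a_ag), block P7: the level map on the Euclidean space of the roots and the weights.
-/

set_option linter.unusedSectionVars false
set_option linter.unusedVariables false

open Module LieModule LieAlgebra LieAlgebra.IsKilling MTP.MF PF PF.CC

namespace PG

variable {K : Type*} [Field K] [CharZero K] [IsAlgClosed K]
  {L : Type*} [LieRing L] [LieAlgebra K L] [FiniteDimensional K L] [IsKilling K L]
  {H : LieSubalgebra K L} [H.IsCartanSubalgebra]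
  {V : Type*} [AddCommGroup V] [Module K V] [FiniteDimensional K V]
  [LieRingModule L V] [LieModule K L V] {I : Type*} [Fintype I] (B : WB (V := V) H I)

/-- A rational projection of `K`. -/
theorem exists_proj (K : Type*) [Field K] [CharZero K] : ∃ π : K →ₗ[ℚ] ℚ, ∀ q : ℚ, π (q : K) = q := by
  obtain ⟨π, hπ⟩ := LinearMap.exists_leftInverse_of_injective (Algebra.linearMap ℚ K)
    (LinearMap.ker_eq_bot.2 (algebraMap ℚ K).injective)
  refine ⟨π, fun q => ?_⟩
  have h1 := congrArg (fun f : ℚ →ₗ[ℚ] ℚ => f q) hπ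
  simpa using h1

/-- The value at `y` as a linear form on the Euclidean space: for every integral functional with a rational value. -/
theorem exists_lev (y : H) : ∃ ℓ : EuclideanSpace ℝ H.root →ₗ[ℝ] ℝ, ∀ (χ : Dual K H) (f : H.root → ℤ),
    (∀ α : H.root, χ (coroot α.1) = (f α : K)) → ∀ q : ℚ, χ y = (q : K) → ℓ (vec f) = (q : ℝ) := by
  classical
  have hy : y ∈ Submodule.span K (Set.range (rootSystem H).coroot) := by
    have h5 : Submodule.span K (Set.range (rootSystem H).coroot) = ⊤ :=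
      RootPairing.IsRootSystem.span_coroot_eq_top
    rw [h5]
    trivial
  obtain ⟨c, hc⟩ := (Submodule.mem_span_range_iff_exists_fun K).1 hy
  obtain ⟨π, hπ⟩ := exists_proj K
  refine ⟨{ toFun := fun v => ∑ α, ((π (c α) : ℚ) : ℝ) * v α
            map_add' := fun v w => by
              simp only [PiLp.add_apply, mul_add, Finset.sum_add_distrib]
            map_smul' := fun t v => by
              simp only [PiLp.smul_apply, smul_eq_mul, RingHom.id_apply, Finset.mul_sum]
              refine Finset.sum_congr rfl fun α _ => ?_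
              ring }, fun χ f hf q hq => ?_⟩
  have h1 : χ y = ∑ α, c α * (f α : K) := by
    rw [← hc, map_sum]
    refine Finset.sum_congr rfl fun α _ => ?_
    rw [map_smul, smul_eq_mul]
    congr 1
    exact hf α
  have h2 : q = ∑ α, π (c α) * (f α : ℚ) := by
    have h3 : π (χ y) = q := by rw [hq, hπ]
    rw [← h3, h1, map_sum]
    refine Finset.sum_congr rfl fun α _ => ?_
    have h4 : c α * ((f α : ℤ) : K) = (f α : ℚ) • c α := by
      rw [Algebra.smul_def, mul_comm]
      congr 1
      simp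
    rw [h4, map_smul, smul_eq_mul, mul_comm]
  rw [h2]
  push_cast
  rfl

/-- `ℓ` is the level map of `y`. -/
def IsLev (y : H) (ℓ : EuclideanSpace ℝ H.root →ₗ[ℝ] ℝ) : Prop := ∀ (χ : Dual K H) (f : H.root → ℤ),
    (∀ α : H.root, χ (coroot α.1) = (f α : K)) → ∀ q : ℚ, χ y = (q : K) → ℓ (vec f) = (q : ℝ)

variable {y : H} {ℓ : EuclideanSpace ℝ H.root →ₗ[ℝ] ℝ}

theorem IsLev.root (h : IsLev y ℓ) {α : H.root} {k : ℤ} (hk : α.1 y = (k : K)) : ℓ (vec (rt (rootSystem H) α)) = k := by
  have h1 := h ((rootSystem H).root α) (rt (rootSystem H) α) (fun β => rt_spec α β) (k : ℚ) (by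
    rw [Rat.cast_intCast, ← hk]
    rfl)
  rw [h1, Rat.cast_intCast]

theorem IsLev.weight (h : IsLev y ℓ) {i : I} {k : ℤ} (hk : B.w i y = (k : K)) : ℓ (vec (wt B i)) = k := by
  have h1 := h (B.w i) (wt B i) (fun β => wt_spec B i β) (k : ℚ) (by rw [Rat.cast_intCast, ← hk])
  rw [h1, Rat.cast_intCast]

theorem IsLev.root_iff (h : IsLev y ℓ) {α : H.root} (hα : ∃ k : ℤ, α.1 y = (k : K)) (k : ℤ) :
    ℓ (vec (rt (rootSystem H) α)) = k ↔ α.1 y = (k : K) := by
  obtain ⟨m, hm⟩ := hα
  rw [h.root hm, hm]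
  constructor
  · intro h1
    have h2 : m = k := by exact_mod_cast h1
    rw [h2]
  · intro h1
    have h2 : m = k := by exact_mod_cast h1
    rw [h2]

theorem IsLev.weight_iff (h : IsLev y ℓ) {i : I} (hi : ∃ k : ℤ, B.w i y = (k : K)) (k : ℤ) :
    ℓ (vec (wt B i)) = k ↔ B.w i y = (k : K) := by
  obtain ⟨m, hm⟩ := hi
  rw [h.weight B hm, hm]
  constructor
  · intro h1
    have h2 : m = k := by exact_mod_cast h1
    rw [h2]
  · intro h1
    have h2 : m = k := by exact_mod_cast h1
    rw [h2]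

/-- Three values. -/
def Three (c : K) : Prop := c = 0 ∨ c = 1 ∨ c = -1

theorem Three.int {c : K} (h : Three c) : ∃ k : ℤ, c = (k : K) ∧ (k = 0 ∨ k = 1 ∨ k = -1) := by
  rcases h with h | h | h
  · exact ⟨0, by rw [h, Int.cast_zero], Or.inl rfl⟩
  · exact ⟨1, by rw [h, Int.cast_one], Or.inr (Or.inl rfl)⟩
  · exact ⟨-1, by rw [h, Int.cast_neg, Int.cast_one], Or.inr (Or.inr rfl)⟩

/-- The root of index `-α`. -/
theorem exists_neg_root (α : H.root) : ∃ β : H.root, ∀ x : H, β.1 x = -α.1 x := by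
  refine ⟨(rootSystem H).reflectionPerm α α, fun x => ?_⟩
  have h1 : (rootSystem H).root ((rootSystem H).reflectionPerm α α) = -(rootSystem H).root α := by
    rw [RootPairing.root_reflectionPerm]
    exact RootPairing.reflection_apply_self _ _
  exact congrArg (fun χ : Dual K H => χ x) h1

/-- A functional which vanishes at no root. -/
theorem exists_root_ne (hy : y ≠ 0) : ∃ α : H.root, α.1 y ≠ 0 := by
  by_contra! hcon
  apply hy
  have h1 : ∀ χ : Dual K H, χ y = 0 := by
    intro χ
    have hχ : χ ∈ Submodule.span K (Set.range (rootSystem H).root) := by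
      have h5 : Submodule.span K (Set.range (rootSystem H).root) = ⊤ :=
        RootPairing.IsRootSystem.span_root_eq_top
      rw [h5]
      trivial
    induction hχ using Submodule.span_induction with
    | mem x hx =>
      obtain ⟨α, rfl⟩ := hx
      exact hcon α
    | zero => rfl
    | add a b _ _ ha hb => rw [LinearMap.add_apply, ha, hb, add_zero]
    | smul c a _ ha => rw [LinearMap.smul_apply, ha, smul_zero]
  exact (Module.forall_dual_apply_eq_zero_iff K y).1 h1

/-- The roots with the grading. -/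
theorem IsLev.lev (h : IsLev y ℓ) [(rootSystem H).IsIrreducible] [Nonempty H.root] (hy : y ≠ 0)
    (hrt : ∀ α : H.root, Three (α.1 y)) : Lev (Ph (rootSystem H)) ℓ.toAddMonoidHom where
  toRS := PF.CC.rs _
  lev := by
    intro a ha
    obtain ⟨α, rfl⟩ := (mem_Ph _).1 ha
    obtain ⟨k, hk, hk3⟩ := (hrt α).int
    have h1 : ℓ.toAddMonoidHom (vec (rt (rootSystem H) α)) = k := h.root hk
    rw [h1]
    rcases hk3 with h2 | h2 | h2 <;> rw [h2] <;> simp
  ex := by
    obtain ⟨α, hα⟩ := exists_root_ne hy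
    obtain ⟨β, hβ⟩ : ∃ β : H.root, β.1 y = 1 := by
      rcases hrt α with h1 | h1 | h1
      · exact absurd h1 hα
      · exact ⟨α, h1⟩
      · obtain ⟨β, hβ⟩ := exists_neg_root α
        exact ⟨β, by rw [hβ, h1, neg_neg]⟩
    refine ⟨_, (mem_Ph _).2 ⟨β, rfl⟩, ?_⟩
    have h1 := h.root (α := β) (k := 1) (by rw [hβ, Int.cast_one])
    rw [Int.cast_one] at h1
    exact h1

/-- The levels of the weights. -/
theorem IsLev.lev_X (h : IsLev y ℓ) (hw : ∀ i, Three (B.w i y)) {x : EuclideanSpace ℝ H.root} (hx : x ∈ Xw B) :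
    ℓ x = 0 ∨ ℓ x = 1 ∨ ℓ x = -1 := by
  obtain ⟨i, rfl⟩ := (mem_Xw B).1 hx
  obtain ⟨k, hk, hk3⟩ := (hw i).int
  rw [h.weight B hk]
  rcases hk3 with h2 | h2 | h2 <;> rw [h2] <;> simp

end PG
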