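import Pool.Agent.Helper98.PG.Setup
import Pool.Agent.Helper99.PG.C3
import Pool.Agent.Helper94.PG.Main
import Pool.Agent.Helper21.PG.Rank
import Pool.Agent.Helper27.GP.GapEnd
import Pool.Agent.Helper81.PF.C10

/-!
Project PG (MP_b8862a_ag), block P7: a simple irreducible Lie algebra of endomorphisms which are skew for a symmetric form
and a grading element with the eigenvalues `1, 0, -1` and the multiplicities `s, h, s`, `s` an odd prime.
-/

set_option linter.unusedSectionVars false
set_option linter.unusedVariables false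

open Module LieModule LieAlgebra LieAlgebra.IsKilling MTP.MF PF PF.CC

attribute [local instance 100] LieRing.ofAssociativeRing

open Pool.Agent.Helper54.MT (semisimple_of_diag exists_cartan_end killing_of)

namespace PG

section Mod

variable {K : Type*} [Field K] [CharZero K] [IsAlgClosed K]
  {L : Type*} [LieRing L] [LieAlgebra K L] [FiniteDimensional K L] [IsKilling K L]
  {H : LieSubalgebra K L} [H.IsCartanSubalgebra]
  {V : Type*} [AddCommGroup V] [Module K V] [FiniteDimensional K V]
  [LieRingModule L V] [LieModule K L V] {I : Type*} [Fintype I] (B : WB (V := V) H I)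

/-- The number of weights of level one, counted without multiplicities. -/
theorem ncard_Y {s : ℕ} {X : Set (EuclideanSpace ℝ H.root)} {ν : ℕ → EuclideanSpace ℝ H.root}
    (hY : ∀ x, x ∈ X ↔ ∃ i < s, x = ν i) (hinj : ∀ i < s, ∀ j < s, ν i = ν j → i = j) : X.ncard = s := by
  have h1 : X = ν '' (Finset.range s : Set ℕ) := by
    ext x
    rw [hY]
    simp only [Set.mem_image, Finset.coe_range, Set.mem_Iio]
    constructor
    · rintro ⟨i, hi, rfl⟩
      exact ⟨i, hi, rfl⟩
    · rintro ⟨i, hi, rfl⟩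
      exact ⟨i, hi, rfl⟩
  rw [h1, Set.InjOn.ncard_image, Set.ncard_coe_finset, Finset.card_range]
  intro i hi j hj hij
  simp only [Finset.coe_range, Set.mem_Iio] at hi hj
  exact hinj i hi j hj hij

/-- The three levels. -/
theorem card_three {a : I → K} (ha : ∀ i, Three (a i)) : Fintype.card I = Nat.card {i // a i = 1} +
    Nat.card {i // a i = 0} + Nat.card {i // a i = -1} := by
  classical
  have hz : (0 : K) ≠ 1 := zero_ne_one
  have hz1 : (0 : K) ≠ -1 := by
    intro h
    have : (1 : K) = 0 := by linear_combination h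
    exact one_ne_zero this
  have hz2 : (1 : K) ≠ -1 := by
    intro h
    have : (2 : K) = 0 := by linear_combination h
    exact two_ne_zero this
  rw [Nat.card_eq_fintype_card, Nat.card_eq_fintype_card, Nat.card_eq_fintype_card, Fintype.card_subtype,
    Fintype.card_subtype, Fintype.card_subtype, ← Finset.card_univ, ← Finset.card_union_of_disjoint,
    ← Finset.card_union_of_disjoint]
  · congr 1
    ext j
    simp only [Finset.mem_univ, Finset.mem_union, Finset.mem_filter, true_and, true_iff]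
    rcases ha j with h | h | h
    · exact Or.inl (Or.inr h)
    · exact Or.inl (Or.inl h)
    · exact Or.inr h
  · rw [Finset.disjoint_left]
    intro j hj hj'
    simp only [Finset.mem_univ, Finset.mem_union, Finset.mem_filter, true_and] at hj hj'
    rcases hj with h | h
    · exact hz2 (h.symm.trans hj')
    · exact hz1 (h.symm.trans hj')
  · rw [Finset.disjoint_left]
    intro j hj hj'
    simp only [Finset.mem_univ, Finset.mem_filter, true_and] at hj hj'
    exact hz (hj'.symm.trans hj)

/-- The number of weights of level zero, if the levels of the roots are `-1, 0, 1`. -/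
theorem level_zero [LieAlgebra.IsSimple K L] [(rootSystem H).IsIrreducible] [Nonempty H.root] [Nonempty I]
    {ω : LinearMap.BilinForm K V}
    (hirr : ∀ W : Submodule K V, (∀ x : L, ∀ u ∈ W, ⁅x, u⁆ ∈ W) → W = ⊥ ∨ W = ⊤)
    (hfaith : ∀ x : L, (∀ u : V, ⁅x, u⁆ = 0) → x = 0)
    (hnd : ω.Nondegenerate) (hsk : ∀ (x : L) (u v : V), ω ⁅x, u⁆ v = - ω u ⁅x, v⁆)
    {y : H} (hrt : ∀ α : H.root, Three (α.1 y)) (hw : ∀ i, Three (B.w i y)) {s h : ℕ}
    (hs : Nat.card {i // B.w i y = 1} = s) (h0 : Nat.card {i // B.w i y = 0} = h) (sp : s.Prime) (s3 : 3 ≤ s) :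
    h = s ^ 2 ∨ 2 * h + s = s ^ 2 + 2 ∨ (s = 3 ∧ (h = 6 ∨ h = 8)) := by
  classical
  have hne : ∃ i, B.w i y = 1 := by
    by_contra! hcon
    have h1 : IsEmpty {i // B.w i y = 1} := ⟨fun i => hcon i.1 i.2⟩
    rw [Nat.card_of_isEmpty] at hs
    omega
  have hy : y ≠ 0 := by
    rintro rfl
    obtain ⟨i, hi⟩ := hne
    rw [map_zero] at hi
    exact zero_ne_one hi
  obtain ⟨ℓ, hℓ⟩ := exists_lev y
  have hℓ : IsLev y ℓ := hℓ
  have hlev := hℓ.lev hy hrt
  have hsat := PF.CC.sat B hirr hnd hsk
  obtain ⟨ν, hY, hinj, hone, hAB⟩ := PG.L.top_config B hirr hfaith hnd hsk hy hℓ hrt hw (s := s)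
    (by rw [← hs, Nat.card_eq_fintype_card, Fintype.card_subtype]) sp s3
  have hs' : Nat.card {i // B.w i y = -1} = s := by rw [card_neg B hnd hsk, hs]
  -- the common end
  have key : (∀ x, (x ∈ Xw B ∧ ℓ x = 1) ↔ (x ∈ Ph (rootSystem H) ∧ ℓ x = 1)) → ∀ m,
      Count (Ph (rootSystem H)) ℓ.toAddMonoidHom m → h = m := by
    intro hYΦ m hc
    have hcard := card_last B hirr hfaith hℓ hrt hw hne hYΦ (s := s) (ncard_Y hY hinj) hc (finrank_H H)
    have hsp := card_three hw
    rw [hs, h0, hs'] at hsp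
    omega
  have hodd : Odd s := sp.odd_of_ne_two (by omega)
  have hX1 : ∀ x ∈ Xw B, ℓ.toAddMonoidHom x ≤ 1 := fun x hx => by
    change ℓ x ≤ 1
    rcases hℓ.lev_X B hw hx with h | h | h <;> rw [h] <;> norm_num
  rcases lt_or_ge s 5 with h5 | h5
  · have hs3 : s = 3 := by
      have h4 : s ≠ 4 := by
        rintro rfl
        exact absurd sp (by norm_num)
      omega
    subst hs3
    have hAB' : IsA (Ph (rootSystem H)) 3 ν ∨ IsB1 (Ph (rootSystem H)) ν := by
      rcases hAB with h | h | h
      · exact Or.inl h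
      · exact absurd h.1 (by norm_num)
      · exact Or.inr h.2
    rcases end_three hlev hsat hX1 (ν := ν) hY hAB' with ⟨hYΦ, m, hc, hm⟩ | hc3
    · have h6 := key hYΦ m hc
      omega
    · have h6 := c3_count B hirr hfaith hℓ hrt hw hlev hsat hY hc3 hs hs'
      omega
  · have hAB' : IsA (Ph (rootSystem H)) s ν ∨ IsB (Ph (rootSystem H)) s ν := by
      rcases hAB with h | h | h
      · exact Or.inl h
      · exact Or.inr h.2
      · omega
    obtain ⟨hYΦ, m, hc, hm⟩ := end_main hlev hsat h5 hodd (ν := ν) hY hAB'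
    have h6 := key hYΦ m hc
    rw [h6]
    rcases hm with h7 | h7
    · exact Or.inl h7
    · exact Or.inr (Or.inl h7)

end Mod

variable {V : Type*} [AddCommGroup V] [Module ℂ V] [FiniteDimensional ℂ V]

/-- **The Lie theorem**: a simple irreducible Lie algebra of endomorphisms, skew for a symmetric form, which contains
an element with the eigenvalues `1, 0, -1` and the multiplicities `s, h, s`, `s` an odd prime, `h > 0`, contains all
skew endomorphisms, unless `h = s^2`, `h = (s^2 - s + 2) / 2`, or `s = 3` and `h = 6, 8`. -/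
theorem three_full {ω : LinearMap.BilinForm ℂ V} (hsymm : ω.IsSymm) (hnd : ω.Nondegenerate)
    (L : LieSubalgebra ℂ (Module.End ℂ V)) [LieAlgebra.IsSimple ℂ L]
    (hirr : ∀ W : Submodule ℂ V, (∀ x ∈ L, ∀ u ∈ W, x u ∈ W) → W = ⊥ ∨ W = ⊤)
    (hsk : ∀ x ∈ L, ∀ u v, ω (x u) v = -ω u (x v)) {y : Module.End ℂ V} (hy : y ∈ L)
    (hdiag : (⨆ c : ℂ, Module.End.eigenspace y c) = ⊤)
    (hev : ∀ c : ℂ, Module.End.eigenspace y c ≠ ⊥ → c = 0 ∨ c = 1 ∨ c = -1) {s h : ℕ}
    (hs : finrank ℂ (Module.End.eigenspace y 1) = s) (h0 : finrank ℂ (Module.End.eigenspace y 0) = h)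
    (sp : s.Prime) (s3 : 3 ≤ s) (hpos : 0 < h) (e1 : h ≠ s ^ 2) (e2 : 2 * h + s ≠ s ^ 2 + 2)
    (e3 : s = 3 → h ≠ 6 ∧ h ≠ 8) :
    ∀ x : Module.End ℂ V, (∀ u v, ω (x u) v = -ω u (x v)) → x ∈ L := by
  classical
  have hodd : Odd s := sp.odd_of_ne_two (by omega)
  rcases MH.gap_three hsymm hnd L hirr hsk hy hdiag hev (by rw [hs]; exact hodd) (by rw [h0]; exact hpos) with
    hgap | hfull
  swap
  · exact hfull
  exfalso
  have hy0 : y ≠ 0 := by
    rintro rfl
    have h1 : Module.End.eigenspace (0 : Module.End ℂ V) 1 = ⊥ := by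
      rw [eq_bot_iff]
      intro v hv
      rw [Module.End.mem_eigenspace_iff, LinearMap.zero_apply, one_smul] at hv
      exact hv.symm
    rw [h1, finrank_bot] at hs
    omega
  have hVn : Nontrivial V := by
    by_contra hcon
    rw [not_nontrivial_iff_subsingleton] at hcon
    apply hy0
    ext u
    exact Subsingleton.elim _ _
  have hk : IsKilling ℂ L := by
    refine killing_of (ω := ω) hnd ⟨?_, ?_, ?_⟩
    · intro x hx y hy
      have := L.lie_mem hx hy
      exact this
    · intro x hx u v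
      exact hsk x hx u v
    · intro W hW
      exact hirr W hW
  obtain ⟨H, hH, hyH⟩ := exists_cartan_end (L := L) ⟨y, hy⟩ (semisimple_of_diag hdiag)
  have hirrR : (rootSystem H).IsIrreducible := inferInstance
  have hne : Nonempty H.root := by
    by_contra hcon
    rw [not_nonempty_iff] at hcon
    have hN : Nontrivial H := RootPairing.IsIrreducible.nontrivial' (rootSystem H)
    have h1 : (⊤ : Submodule ℂ H) = ⊥ := by
      have h2 : (rootSystem H).corootSpan ℂ = ⊤ := RootPairing.IsRootSystem.span_coroot_eq_top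
      rw [← h2, RootPairing.corootSpan, Set.range_eq_empty, Submodule.span_empty]
    exact bot_ne_top h1.symm
  have hirr' : ∀ W : Submodule ℂ V, (∀ x : L, ∀ u ∈ W, ⁅x, u⁆ ∈ W) → W = ⊥ ∨ W = ⊤ :=
    fun W hW => hirr W fun z hz w hw => hW ⟨z, hz⟩ w hw
  have hsk' : ∀ (x : L) (u v : V), ω ⁅x, u⁆ v = - ω u ⁅x, v⁆ := by
    intro x u v
    exact hsk x x.2 u v
  have hfaith : ∀ x : L, (∀ u : V, ⁅x, u⁆ = 0) → x = 0 := by
    intro x hx
    apply Subtype.ext
    ext u
    exact hx u
  obtain ⟨n, ⟨B⟩⟩ := exists_WB (V := V) (H := H) hirr'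
  have hcard : Fintype.card (Fin n) = finrank ℂ V := (finrank_eq_card_basis B.v).symm
  have hneI : Nonempty (Fin n) := by
    rw [← Fintype.card_pos_iff, hcard]
    exact finrank_pos
  obtain ⟨D, hD⟩ : ∃ D : H, ((D : L) : Module.End ℂ V) = y := ⟨⟨⟨y, hy⟩, hyH⟩, rfl⟩
  have hlie : ∀ i, y (B.v i) = B.w i D • B.v i := fun i => by
    have h1 := B.lie_v i D
    rw [← hD]
    exact h1
  have hw : ∀ i, Three (B.w i D) := by
    intro i
    apply hev
    rw [Submodule.ne_bot_iff]
    exact ⟨B.v i, Module.End.mem_eigenspace_iff.2 (hlie i), B.v.ne_zero i⟩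
  have htwo : ∀ α : H.root, α.1 D ≠ 2 := by
    intro α hα
    obtain ⟨x, hx, hx0⟩ := α.1.exists_ne_zero
    apply hx0
    have h1 : ⁅(D : L), x⁆ = (2 : ℂ) • x := by
      have h2 : ⁅(D : L), x⁆ = α.1 D • x := lie_eq_smul_of_mem_rootSpace hx D
      rw [h2, hα]
    have h2 := hgap (x : Module.End ℂ V) x.2 (by
      have h3 := congrArg (fun z : L => (z : Module.End ℂ V)) h1
      have h4 : ((⁅(D : L), x⁆ : L) : Module.End ℂ V) = ⁅((D : L) : Module.End ℂ V), (x : Module.End ℂ V)⁆ := rfl
      simp only [h4, hD, LieRing.of_associative_ring_bracket] at h3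
      exact h3)
    exact Subtype.ext h2
  have hrt : ∀ α : H.root, Three (α.1 D) := by
    intro α
    obtain ⟨i, j, hij⟩ := B.root_apply hfaith α
    have h1 := hij D
    have h2 : α.1 D ≠ -2 := by
      intro h3
      obtain ⟨β, hβ⟩ := exists_neg_root α
      exact htwo β (by rw [hβ, h3, neg_neg])
    have h3 := htwo α
    rcases hw i with hi | hi | hi <;> rcases hw j with hj | hj | hj <;> rw [hi, hj] at h1
    · exact Or.inl (by linear_combination -h1)
    · exact Or.inr (Or.inl (by linear_combination -h1))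
    · exact Or.inr (Or.inr (by linear_combination -h1))
    · exact Or.inr (Or.inr (by linear_combination -h1))
    · exact Or.inl (by linear_combination -h1)
    · exact absurd (by linear_combination -h1 : α.1 D = -2) h2
    · exact Or.inr (Or.inl (by linear_combination -h1))
    · exact absurd (by linear_combination -h1 : α.1 D = 2) h3
    · exact Or.inl (by linear_combination -h1)
  have hs' : Nat.card {i // B.w i D = 1} = s := by
    rw [← hs, finrank_eig_eq B.v y (fun i => B.w i D) hlie 1]
  have h0' : Nat.card {i // B.w i D = 0} = h := by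
    rw [← h0, finrank_eig_eq B.v y (fun i => B.w i D) hlie 0]
  rcases level_zero B hirr' hfaith hnd hsk' hrt hw hs' h0' sp s3 with h1 | h1 | ⟨h1, h2⟩
  · exact e1 h1
  · exact e2 h1
  · have h3 := e3 h1
    omega

end PG
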