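import Pool.Agent.Helper98.PG.Ext
import Pool.Agent.Helper98.MH.Spc
import Pool.Agent.Helper98.PF.Dich

/-!
Project PG (MP_b8862a_ag): if `L` contains an element of the extreme degree then `h` lies in every ideal or in its
complement.
-/

set_option linter.unusedSectionVars false
set_option linter.unusedVariables false

open Matrix
open scoped ComplexOrder

namespace MH

variable {n : Type*} [Fintype n] [DecidableEq n]
variable {h : Matrix n n ℂ} {E : ℝ → Matrix n n ℂ} {Λ : Finset ℝ}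
variable {τ : Matrix n n ℂ →ₗ[ℂ] Matrix n n ℂ} {L : Submodule ℂ (Matrix n n ℂ)}

namespace Dat

variable (D : Dat τ L h E Λ) {t : ℝ}
include D

/-- Self-adjoint ideals are spanned by brackets. -/
theorem perfect98 {K : Submodule ℂ (Matrix n n ℂ)} (hK : IsI L K) {x : Matrix n n ℂ} (hx : x ∈ K) :
    x ∈ Submodule.span ℂ {z | ∃ u ∈ K, ∃ v ∈ K, z = u * v - v * u} := by
  obtain ⟨M, hM⟩ : ∃ M : Submodule ℂ (Matrix n n ℂ), M = Submodule.span ℂ
    {z | ∃ u ∈ K, ∃ v ∈ K, z = u * v - v * u} := ⟨_, rfl⟩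
  have hMK : M ≤ K := by
    rw [hM, Submodule.span_le]
    rintro _ ⟨u, hu, v, hv, rfl⟩
    exact hK.br u (hK.le hu) v hv
  rw [← hM]
  obtain ⟨x1, hx1, horth⟩ := decomp (I := M) x
  have hc : x - x1 ∈ K := K.sub_mem hx (hMK hx1)
  have hcK : ∀ u ∈ K, (x - x1) * u = u * (x - x1) := by
    intro u hu
    have hd : u * (x - x1) - (x - x1) * u ∈ K := hK.br u (hK.le hu) _ hc
    have hg : uᴴ * (u * (x - x1) - (x - x1) * u) - (u * (x - x1) - (x - x1) * u) * uᴴ ∈ M := by
      rw [hM]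
      exact Submodule.subset_span ⟨_, hK.st u hu, _, hd, rfl⟩
    have h1 := horth _ hg
    have h2 : ((uᴴ * (u * (x - x1) - (x - x1) * u) - (u * (x - x1) - (x - x1) * u) * uᴴ)ᴴ * (x - x1)).trace =
        ((u * (x - x1) - (x - x1) * u)ᴴ * (u * (x - x1) - (x - x1) * u)).trace := by
      rw [conjTranspose_sub (uᴴ * _), conjTranspose_mul uᴴ, conjTranspose_mul _ uᴴ, conjTranspose_conjTranspose, sub_mul,
        mul_sub ((u * (x - x1) - (x - x1) * u)ᴴ), Matrix.trace_sub, Matrix.trace_sub, mul_assoc]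
      congr 1
      rw [mul_assoc, Matrix.trace_mul_comm, mul_assoc]
    rw [h2] at h1
    have h3 : u * (x - x1) - (x - x1) * u = 0 := by
      apply eq_zero_of_trace
      rw [h1]
      rfl
    exact (sub_eq_zero.1 h3).symm
  have h0 : x - x1 = 0 := by
    refine D.cen_zero98 (hK.le hc) fun z hz => ?_
    obtain ⟨a, ha, ha'⟩ := decomp (I := K) z
    have hb : z - a ∈ pp L K := ⟨L.sub_mem hz (hK.le ha), ha'⟩
    have e1 := hK.comm D.isI hc hb
    have e2 : z = a + (z - a) := by abel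
    rw [e2, mul_add, add_mul, hcK a ha, e1]
  rw [sub_eq_zero.1 h0]
  exact hx1

theorem tr_perfect98 {K : Submodule ℂ (Matrix n n ℂ)} (hK : IsI L K) {x P : Matrix n n ℂ} (hx : x ∈ K)
    (hP : ∀ u ∈ K, P * u = u * P) : (P * x).trace = 0 := by
  have h1 := D.perfect98 hK hx
  induction h1 using Submodule.span_induction with
  | mem z hz =>
    obtain ⟨u, hu, v, hv, rfl⟩ := hz
    rw [mul_sub, Matrix.trace_sub, sub_eq_zero]
    calc (P * (u * v)).trace = (u * (P * v)).trace := by rw [← mul_assoc, hP u hu, mul_assoc]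
      _ = (P * v * u).trace := Matrix.trace_mul_comm _ _
      _ = (P * (v * u)).trace := by rw [mul_assoc]
  | zero => simp
  | add a b ha hb h2 h3 => rw [mul_add, Matrix.trace_add]; rw [h2 (by
      have : K = K := rfl
      refine Submodule.span_le.2 ?_ ha
      rintro _ ⟨u, hu, v, hv, rfl⟩
      exact hK.br u (hK.le hu) v hv), h3 (by
      refine Submodule.span_le.2 ?_ hb
      rintro _ ⟨u, hu, v, hv, rfl⟩
      exact hK.br u (hK.le hu) v hv), add_zero]
  | smul c a ha h2 => rw [mul_smul_comm, Matrix.trace_smul, h2 (by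
      refine Submodule.span_le.2 ?_ ha
      rintro _ ⟨u, hu, v, hv, rfl⟩
      exact hK.br u (hK.le hu) v hv), smul_zero]

/-- `t - h` is positive semidefinite. -/
theorem psd98 (htop : ∀ μ, E μ ≠ 0 → μ ≤ t) : ((t : ℂ) • (1 : Matrix n n ℂ) - h).PosSemidef := by
  have h1 : (t : ℂ) • (1 : Matrix n n ℂ) - h = ∑ μ ∈ Λ, ((t - μ : ℝ) : ℂ) • E μ := by
    conv_lhs => rw [D.spec.eq, ← D.spec.sum, Finset.smul_sum, ← Finset.sum_sub_distrib]
    refine Finset.sum_congr rfl fun μ _ => ?_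
    push_cast
    rw [sub_smul]
  rw [h1]
  refine Finset.sum_induction _ (fun M : Matrix n n ℂ => M.PosSemidef) (fun a b ha hb => ha.add hb)
    Matrix.PosSemidef.zero fun μ _ => ?_
  by_cases h0 : E μ = 0
  · rw [h0, smul_zero]
    exact Matrix.PosSemidef.zero
  · have h2 : 0 ≤ t - μ := by
      have := htop μ h0
      linarith
    have h3 : ((t - μ : ℝ) : ℂ) • E μ = ((Real.sqrt (t - μ) : ℂ) • E μ)ᴴ * ((Real.sqrt (t - μ) : ℂ) • E μ) := by
      rw [conjTranspose_smul, D.spec.star, smul_mul_smul_comm, D.spec.mul, if_pos rfl]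
      congr 1
      have h4 : star (Real.sqrt (t - μ) : ℂ) = (Real.sqrt (t - μ) : ℂ) := Complex.conj_ofReal _
      rw [h4, ← Complex.ofReal_mul, Real.mul_self_sqrt h2]
    rw [h3]
    exact Matrix.posSemidef_conjTranspose_mul_self _

theorem part_zero98 [Nonempty n] (ht : 0 < t) (htop : ∀ μ, E μ ≠ 0 → μ ≤ t) {K' : Submodule ℂ (Matrix n n ℂ)}
    (hK' : IsI L K') {k k' : Matrix n n ℂ} (hkL : k ∈ L) (hks : kᴴ = k) (hk' : k' ∈ K') (hkk : h = k + k')
    (hcom : ∀ b ∈ K', k * b = b * k) {y : Matrix n n ℂ} (hy : y ∈ L) (hy0 : y ≠ 0)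
    (hky : k * y - y * k = ((2 * t : ℝ) : ℂ) • y) : k' = 0 := by
  classical
  obtain ⟨F, Λ', S, -⟩ := exists_spec98 hks
  have Dk : Dat τ L k F Λ' := ⟨D.inv, S, D.sk, D.br, D.st, D.irr, hkL⟩
  have hyk : y ∈ Ld L k (2 * t) := ⟨hy, hky⟩
  -- the largest eigenvalue of `k`
  obtain ⟨μ, hμ, hyμ⟩ : ∃ μ ∈ Λ', y * F μ ≠ 0 := by
    by_contra! hcon
    apply hy0
    rw [← mul_one y, ← S.sum, Finset.mul_sum]
    exact Finset.sum_eq_zero hcon
  have hFμ : F μ ≠ 0 := by
    intro h0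
    rw [h0, mul_zero] at hyμ
    exact hyμ rfl
  have hFμ2 : F (μ + 2 * t) ≠ 0 := by
    intro h0
    rw [Dk.Ld_mul_E hyk, h0, zero_mul, zero_mul] at hyμ
    exact hyμ rfl
  have hne : (Λ'.filter fun μ => F μ ≠ 0).Nonempty := ⟨μ, Finset.mem_filter.2 ⟨hμ, hFμ⟩⟩
  obtain ⟨α, hα, hmax⟩ : ∃ α : ℝ, F α ≠ 0 ∧ ∀ ν : ℝ, F ν ≠ 0 → ν ≤ α := by
    obtain ⟨α, hα1, hα2⟩ := Finset.exists_max_image (Λ'.filter fun μ => F μ ≠ 0) (fun μ : ℝ => μ) hne
    refine ⟨α, (Finset.mem_filter.1 hα1).2, fun ν hν => hα2 ν (Finset.mem_filter.2 ⟨?_, hν⟩)⟩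
    by_contra h1
    exact hν (S.supp ν h1)
  have hαt : t ≤ α := by
    have h1 := hmax _ hFμ2
    have h2 : F (-μ) ≠ 0 := by
      rw [← Dk.tauE]
      intro h3
      apply hFμ
      rw [← D.inv.inv (F μ), h3, map_zero]
    have h3 := hmax _ h2
    linarith
  obtain ⟨P, hP⟩ : ∃ P, P = F α := ⟨_, rfl⟩
  have hPs : Pᴴ = P := by rw [hP, S.star]
  have hPP : P * P = P := by rw [hP, S.mul, if_pos rfl]
  have hPk : P * k = (α : ℂ) • P := by rw [hP, S.mul_h]
  have hPc : ∀ b ∈ K', P * b = b * P := by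
    intro b hb
    rw [hP]
    exact (S.comm_E (T := b) (hcom b hb).symm α).symm
  -- the positive semidefinite matrix
  have hN : P * ((t : ℂ) • (1 : Matrix n n ℂ) - h) * P + (((α - t : ℝ) : ℂ)) • P = -(P * k') := by
    have e1 : P * k' * P = P * k' := by rw [mul_assoc, ← hPc k' hk', ← mul_assoc, hPP]
    have e2 : P * k * P = (α : ℂ) • P := by rw [hPk, smul_mul_assoc, hPP]
    rw [hkk, mul_sub, sub_mul, mul_smul_comm, mul_one, smul_mul_assoc, hPP, mul_add, add_mul, e1, e2]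
    push_cast
    module
  have hN1 : (P * ((t : ℂ) • (1 : Matrix n n ℂ) - h) * P + (((α - t : ℝ) : ℂ)) • P).PosSemidef := by
    refine Matrix.PosSemidef.add ?_ ?_
    · have h1 := (D.psd98 htop).conjTranspose_mul_mul_same P
      rw [hPs] at h1
      exact h1
    · have h2 : 0 ≤ α - t := by linarith
      have h3 : ((α - t : ℝ) : ℂ) • P = ((Real.sqrt (α - t) : ℂ) • P)ᴴ * ((Real.sqrt (α - t) : ℂ) • P) := by
        rw [conjTranspose_smul, hPs, smul_mul_smul_comm, hPP]
        congr 1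
        have h4 : star (Real.sqrt (α - t) : ℂ) = (Real.sqrt (α - t) : ℂ) := Complex.conj_ofReal _
        rw [h4, ← Complex.ofReal_mul, Real.mul_self_sqrt h2]
      rw [h3]
      exact Matrix.posSemidef_conjTranspose_mul_self _
  have hPk0 : P * k' = 0 := by
    have h1 := hN1.trace_eq_zero_iff.1 (by
      rw [hN, Matrix.trace_neg, D.tr_perfect98 hK' hk' hPc, neg_zero])
    rw [hN] at h1
    exact neg_eq_zero.1 h1
  -- the annihilator of the eigenspace
  have hWst : ∀ x ∈ L, ∀ v : n → ℂ, (∀ z ∈ K', z * P = 0 → z *ᵥ v = 0) → ∀ z ∈ K', z * P = 0 → z *ᵥ (x *ᵥ v) = 0 := by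
    intro x hx v hv z hz hzP
    have h1 : x * z - z * x ∈ K' := hK'.br x hx z hz
    have h2 : (x * z - z * x) * P = 0 := by
      obtain ⟨b, hb, hb'⟩ := decomp (I := K') x
      have ha : x - b ∈ pp L K' := ⟨L.sub_mem hx (hK'.le hb), hb'⟩
      have e1 := hK'.comm D.isI hz ha
      have e2 : z * x * P = z * b * P + z * (x - b) * P := by rw [← add_mul, ← mul_add]; congr 2; abel
      rw [sub_mul, mul_assoc, hzP, mul_zero, zero_sub, neg_eq_zero, e2, e1, mul_assoc z, ← hPc b hb, ← mul_assoc, hzP,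
        zero_mul, zero_add, mul_assoc, hzP, mul_zero]
    have h3 : z *ᵥ (x *ᵥ v) = x *ᵥ (z *ᵥ v) - (x * z - z * x) *ᵥ v := by
      rw [Matrix.mulVec_mulVec, Matrix.mulVec_mulVec, Matrix.sub_mulVec]
      abel
    rw [h3, hv z hz hzP, Matrix.mulVec_zero, hv _ h1 h2, sub_zero]
  have hW := D.stable { carrier := {v | ∀ z ∈ K', z * P = 0 → z *ᵥ v = 0}
                        add_mem' := fun {a b} ha hb z hz hzP => by
                          rw [Matrix.mulVec_add, ha z hz hzP, hb z hz hzP, add_zero]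
                        zero_mem' := fun z _ _ => Matrix.mulVec_zero z
                        smul_mem' := fun c a ha z hz hzP => by
                          rw [Matrix.mulVec_smul, ha z hz hzP, smul_zero] } (fun x hx v hv => hWst x hx v hv)
  rcases hW with h1 | h1
  · exfalso
    apply hα
    rw [← hP]
    refine Dat.mat_ext fun u => ?_
    rw [Matrix.zero_mulVec]
    have h2 : P *ᵥ u ∈ (⊥ : Submodule ℂ (n → ℂ)) := by
      rw [← h1]
      intro z _ hzP
      rw [Matrix.mulVec_mulVec, hzP, Matrix.zero_mulVec]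
    exact (Submodule.mem_bot ℂ).1 h2
  · refine Dat.mat_ext fun u => ?_
    have h2 : u ∈ (⊤ : Submodule ℂ (n → ℂ)) := Submodule.mem_top
    rw [← h1] at h2
    rw [Matrix.zero_mulVec]
    exact h2 k' hk' (by rw [← hPc k' hk', hPk0])

/-- If `L` contains an element of the extreme degree then `h` lies in every ideal or in its complement. -/
theorem h_mem_or_ext98 [Nonempty n] (ht : 0 < t) (htop : ∀ μ, E μ ≠ 0 → μ ≤ t) (hne : Ld L h (2 * t) ≠ ⊥)
    {K : Submodule ℂ (Matrix n n ℂ)} (hK : IsI L K) : h ∈ K ∨ h ∈ pp L K := by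
  classical
  have hKp := hK.perp D.isI
  obtain ⟨k, hk, hk'⟩ := decomp (I := K) h
  have hp : h - k ∈ pp L K := ⟨L.sub_mem D.mem (hK.le hk), hk'⟩
  have hks : kᴴ = k := by
    have h1 : kᴴ - k ∈ K := K.sub_mem (hK.st k hk) hk
    have h2 : kᴴ - k ∈ pp L K := by
      have e1 : kᴴ - k = (h - k) - (h - k)ᴴ := by
        rw [conjTranspose_sub, D.spec.hh]
        abel
      rw [e1]
      exact (pp L K).sub_mem hp (hKp.st _ hp)
    exact sub_eq_zero.1 (IsI.disj h1 h2)
  have hks' : (h - k)ᴴ = h - k := by rw [conjTranspose_sub, D.spec.hh, hks]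
  obtain ⟨x, hx, hx0⟩ := (Submodule.ne_bot_iff _).1 hne
  obtain ⟨y, hy, hy'⟩ := decomp (I := K) x
  have hyp : x - y ∈ pp L K := ⟨L.sub_mem hx.1 (hK.le hy), hy'⟩
  have c1 : (h - k) * y = y * (h - k) := (hK.comm D.isI hy hp).symm
  have c2 : k * (x - y) = (x - y) * k := hK.comm D.isI hk hyp
  have hsum : (k * y - y * k) - ((2 * t : ℝ) : ℂ) • y =
      -(((h - k) * (x - y) - (x - y) * (h - k)) - ((2 * t : ℝ) : ℂ) • (x - y)) := by
    have e1 := hx.2
    have e2 : h * x - x * h = (k * y - y * k) + ((h - k) * (x - y) - (x - y) * (h - k)) +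
        ((h - k) * y - y * (h - k)) + (k * (x - y) - (x - y) * k) := by noncomm_ring
    rw [e2, c1, c2, sub_self, sub_self, add_zero, add_zero] at e1
    rw [smul_sub]
    have e3 : k * y - y * k = ((2 * t : ℝ) : ℂ) • x - ((h - k) * (x - y) - (x - y) * (h - k)) := by
      rw [← e1]
      abel
    rw [e3]
    abel
  have z1 : (k * y - y * k) - ((2 * t : ℝ) : ℂ) • y = 0 := by
    refine IsI.disj (L := L) (I := K) (K.sub_mem (hK.br k (hK.le hk) y hy) (K.smul_mem _ hy)) ?_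
    rw [hsum]
    exact (pp L K).neg_mem ((pp L K).sub_mem (hKp.br _ hp.1 _ hyp) ((pp L K).smul_mem _ hyp))
  have z2 : ((h - k) * (x - y) - (x - y) * (h - k)) - ((2 * t : ℝ) : ℂ) • (x - y) = 0 := by
    rw [z1] at hsum
    exact neg_eq_zero.1 hsum.symm
  by_cases hy0 : y = 0
  · right
    have hxy : x - y ≠ 0 := by rwa [hy0, sub_zero]
    have h1 := D.part_zero98 ht htop hK (k := h - k) (k' := k) hp.1 hks' hk (by abel) (fun b hb =>
      (hK.comm D.isI hb hp).symm) hyp.1 hxy (sub_eq_zero.1 z2)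
    rwa [h1, sub_zero] at hp
  · left
    have h1 := D.part_zero98 ht htop hKp (k := k) (k' := h - k) (hK.le hk) hks hp (by abel) (fun b hb =>
      hK.comm D.isI hk hb) (hK.le hy) hy0 (sub_eq_zero.1 z1)
    rw [sub_eq_zero.1 h1]
    exact hk

end Dat

end MH
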