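import Pool.Agent.Helper98.PG.Real

/-!
Project PG (MP_b8862a_ag), block P7: multiplicities of the eigenvalues.
-/

set_option linter.unusedSectionVars false
set_option linter.unusedVariables false

open Module LieModule LieAlgebra LieAlgebra.IsKilling MTP.MF PF PF.CC

namespace PG

variable {K : Type*} [Field K] [CharZero K] [IsAlgClosed K]
  {L : Type*} [LieRing L] [LieAlgebra K L] [FiniteDimensional K L] [IsKilling K L]
  {H : LieSubalgebra K L} [H.IsCartanSubalgebra]
  {V : Type*} [AddCommGroup V] [Module K V] [FiniteDimensional K V]
  [LieRingModule L V] [LieModule K L V] {I : Type*} [Fintype I] (B : WB (V := V) H I)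

/-- The multiplicity of an eigenvalue. -/
theorem finrank_eig_eq {K V : Type*} [Field K] [AddCommGroup V] [Module K V] {I : Type*} [Fintype I] (v : Basis I K V)
    (h : Module.End K V) (a : I → K) (ha : ∀ i, h (v i) = a i • v i) (c : K) :
    finrank K (Module.End.eigenspace h c) = Nat.card {i // a i = c} := by
  classical
  have h1 : Module.End.eigenspace h c = Submodule.span K (Set.range fun i : {i // a i = c} => v i) := by
    apply le_antisymm
    · intro u hu
      rw [Module.End.mem_eigenspace_iff] at hu
      have h2 : ∀ i, v.repr u i ≠ 0 → a i = c := by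
        intro i hi
        have h3 : h u = ∑ j, (v.repr u j * a j) • v j := by
          conv_lhs => rw [← v.sum_repr u]
          rw [map_sum]
          refine Finset.sum_congr rfl fun j _ => ?_
          rw [map_smul, ha, smul_smul]
        have h4 : v.repr (h u) i = v.repr u i * a i := by rw [h3, v.repr_sum_self]
        rw [hu, map_smul, Finsupp.smul_apply, smul_eq_mul] at h4
        have h5 : v.repr u i * (a i - c) = 0 := by linear_combination -h4
        rcases mul_eq_zero.1 h5 with h6 | h6
        · exact absurd h6 hi
        · exact sub_eq_zero.1 h6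
      rw [← v.sum_repr u]
      refine Submodule.sum_mem _ fun i _ => ?_
      by_cases hi : v.repr u i = 0
      · rw [hi, zero_smul]
        exact zero_mem _
      · exact Submodule.smul_mem _ _ (Submodule.subset_span ⟨⟨i, h2 i hi⟩, rfl⟩)
    · rw [Submodule.span_le]
      rintro _ ⟨i, rfl⟩
      rw [SetLike.mem_coe, Module.End.mem_eigenspace_iff, ha, i.2]
  have h2 : LinearIndependent K fun i : {i // a i = c} => v i :=
    v.linearIndependent.comp (Subtype.val : {i // a i = c} → I) Subtype.val_injective
  rw [h1, finrank_span_eq_card h2, Nat.card_eq_fintype_card]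

/-- The levels `1` and `-1` have the same multiplicity. -/
theorem card_neg {ω : LinearMap.BilinForm K V} (hnd : ω.Nondegenerate)
    (hsk : ∀ (x : L) (u v : V), ω ⁅x, u⁆ v = - ω u ⁅x, v⁆) (y : H) (c : K) :
    Nat.card {i // B.w i y = -c} = Nat.card {i // B.w i y = c} := by
  classical
  have h1 := B.sum_symm hnd hsk fun μ => if μ y = c then 1 else 0
  have h2 : ∀ i, ((-B.w i) y = c) = (B.w i y = -c) := fun i => by
    rw [LinearMap.neg_apply, neg_eq_iff_eq_neg]
  simp only [h2] at h1
  rw [Finset.sum_boole, Finset.sum_boole] at h1
  rw [Nat.card_eq_fintype_card, Nat.card_eq_fintype_card, Fintype.card_subtype, Fintype.card_subtype]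
  exact_mod_cast h1.symm

end PG
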