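import Pool.Agent.Helper27.GP.Gap
import Pool.Agent.Helper98.PG.ExtOr

/-!
Project PG (MP_b8862a_ag): the extreme degree, matrix forms (any basis, a symmetric or alternating form), and the
reduction to the three eigenvalues `1, 0, -1`.
-/

set_option linter.unusedSectionVars false
set_option linter.unusedVariables false

open Matrix

namespace MH

variable {n : Type*} [Fintype n] [DecidableEq n]

/-- the data in a basis, for a symmetric or alternating form -/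
theorem dat_irr98 [Nonempty n] {ε : ℂ} (hε : ε * ε = 1) {Q' Qi : Matrix n n ℂ} (hQs : Q'ᵀ = ε • Q') (hQ1 : Q' * Qi = 1) (hQ2 : Qi * Q' = 1)
    {L : Submodule ℂ (Matrix n n ℂ)} (hbr : ∀ X ∈ L, ∀ Y ∈ L, X * Y - Y * X ∈ L)
    (hirr : ∀ W : Submodule ℂ (n → ℂ), (∀ X ∈ L, ∀ w ∈ W, X *ᵥ w ∈ W) → W = ⊥ ∨ W = ⊤)
    (hsk : ∀ X ∈ L, Xᵀ * Q' + Q' * X = 0) {h : Matrix n n ℂ} (hh : h ∈ L) {E : ℝ → Matrix n n ℂ} {Λ : Finset ℝ}
    (hE : SD h E Λ) {B Bi : Matrix n n ℂ} (h1 : B * Bi = 1) (h2 : Bi * B = 1) (h3 : (cj B Bi h)ᴴ = cj B Bi h)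
    (h4 : ∀ X ∈ L, cj Bi B (cj B Bi X)ᴴ ∈ L) :
    Dat (tG27 (B * Qi * Bᵀ) (Biᵀ * Q' * Bi)) (LBB27 L B Bi) (cj B Bi h) (fun μ => cj B Bi (E μ)) Λ := by
  have b1 : Bᵀ * Biᵀ = 1 := by rw [← Matrix.transpose_mul, h2, Matrix.transpose_one]
  have b2 : Biᵀ * Bᵀ = 1 := by rw [← Matrix.transpose_mul, h1, Matrix.transpose_one]
  have hGiG : B * Qi * Bᵀ * (Biᵀ * Q' * Bi) = 1 := by
    calc B * Qi * Bᵀ * (Biᵀ * Q' * Bi) = B * Qi * (Bᵀ * Biᵀ) * Q' * Bi := by simp only [mul_assoc]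
      _ = B * (Qi * Q') * Bi := by rw [b1, mul_one]; simp only [mul_assoc]
      _ = 1 := by rw [hQ2, mul_one, h1]
  have hGGi : Biᵀ * Q' * Bi * (B * Qi * Bᵀ) = 1 := by
    calc Biᵀ * Q' * Bi * (B * Qi * Bᵀ) = Biᵀ * Q' * (Bi * B) * Qi * Bᵀ := by simp only [mul_assoc]
      _ = Biᵀ * (Q' * Qi) * Bᵀ := by rw [h2, mul_one]; simp only [mul_assoc]
      _ = 1 := by rw [hQ1, mul_one, b2]
  have hGt : (Biᵀ * Q' * Bi)ᵀ = ε • (Biᵀ * Q' * Bi) := by
    rw [Matrix.transpose_mul, Matrix.transpose_mul, Matrix.transpose_transpose, hQs, Matrix.smul_mul, Matrix.mul_smul,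
      mul_assoc]
  have hsk' : ∀ x ∈ LBB27 L B Bi, tG27 (B * Qi * Bᵀ) (Biᵀ * Q' * Bi) x = -x := by
    intro x hx
    have e1 := tG_cj27 (B := B) hQ2 h2 (hsk _ (mem_LBB27.1 hx))
    rwa [cj_cj h1] at e1
  have hst' : ∀ x ∈ LBB27 L B Bi, xᴴ ∈ LBB27 L B Bi := by
    intro x hx
    have e1 := h4 _ (mem_LBB27.1 hx)
    rwa [cj_cj h1] at e1
  have hirr' : ∀ T : Matrix n n ℂ, (∀ x ∈ LBB27 L B Bi, T * x = x * T) → ∃ c : ℂ, T = c • (1 : Matrix n n ℂ) := by
    intro T hT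
    obtain ⟨c, hc⟩ := schur_of27 L hirr (T := cj Bi B T) (by
      intro X hX
      have e1 := hT (cj B Bi X) (by rw [mem_LBB27, cj_cj h2]; exact hX)
      have e2 := congrArg (cj Bi B) e1
      rwa [← cj_mul h1, ← cj_mul h1, cj_cj h2] at e2)
    refine ⟨c, ?_⟩
    have e3 := congrArg (cj B Bi) hc
    rwa [cj_cj h1, cj_smul, cj_one h1] at e3
  generalize B * Qi * Bᵀ = Gi at hGiG hGGi hsk' ⊢
  generalize Biᵀ * Q' * Bi = G at hGiG hGGi hGt hsk' ⊢
  have hGit : Giᵀ = ε • Gi := by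
    have e1 : ε • (Giᵀ * G) = 1 := by
      have e2 := congrArg Matrix.transpose hGGi
      rwa [Matrix.transpose_mul, hGt, Matrix.mul_smul, Matrix.transpose_one] at e2
    have e3 : Giᵀ * G = ε • (1 : Matrix n n ℂ) := by
      rw [← e1, smul_smul, hε, one_smul]
    calc Giᵀ = Giᵀ * (G * Gi) := by rw [hGGi, mul_one]
      _ = ε • Gi := by rw [← mul_assoc, e3, Matrix.smul_mul, one_mul]
  have hsk2 : ∀ x ∈ LBB27 L B Bi, xᵀ * G = -(G * x) := by
    intro x hx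
    calc xᵀ * G = G * (Gi * xᵀ * G) := by simp only [← mul_assoc]; rw [hGGi, one_mul]
      _ = -(G * x) := by rw [← tG_apply27, hsk' x hx, mul_neg]
  obtain ⟨c, hc⟩ := hirr' (Gᴴ * G) (by
    intro x hx
    have e1 : (xᴴ)ᵀ * G = -(G * xᴴ) := hsk2 _ (hst' x hx)
    have e2 : Gᴴ * xᵀ = -(x * Gᴴ) := by
      have e3 := congrArg Matrix.conjTranspose e1
      rw [Matrix.conjTranspose_mul, Matrix.conjTranspose_neg, Matrix.conjTranspose_mul,
        Matrix.conjTranspose_conjTranspose] at e3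
      have e4 : ((xᴴ)ᵀ)ᴴ = xᵀ := by
        have : (xᴴ)ᵀ = (xᵀ)ᴴ := rfl
        rw [this, Matrix.conjTranspose_conjTranspose]
      rwa [e4] at e3
    calc Gᴴ * G * x = -(Gᴴ * xᵀ * G) := by rw [mul_assoc, mul_assoc, hsk2 x hx, mul_neg, neg_neg]
      _ = x * (Gᴴ * G) := by rw [e2, neg_mul, neg_neg, mul_assoc])
  have hcr : starRingEnd ℂ c = c := by
    have e1 : (Gᴴ * G)ᴴ = Gᴴ * G := by rw [Matrix.conjTranspose_mul, Matrix.conjTranspose_conjTranspose]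
    rw [hc, Matrix.conjTranspose_smul, Matrix.conjTranspose_one] at e1
    obtain ⟨i⟩ := (inferInstance : Nonempty n)
    have e2 := congrFun (congrFun e1 i) i
    simpa using e2
  have hG1 : Gᴴ = c • Gi := by
    calc Gᴴ = Gᴴ * G * Gi := by rw [mul_assoc, hGGi, mul_one]
      _ = c • Gi := by rw [hc, smul_mul_assoc, one_mul]
  have hG2 : G = c • Giᴴ := by
    have e1 := congrArg Matrix.conjTranspose hG1
    rw [Matrix.conjTranspose_conjTranspose, Matrix.conjTranspose_smul] at e1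
    rw [e1]
    congr 1
  refine ⟨⟨?_, ?_, ?_, ?_⟩, spec_of27 (sd_cj27 hE h1 h2) h3, hsk', ?_, hst', hirr', ?_⟩
  · intro x y
    rw [tG_apply27, tG_apply27, tG_apply27, Matrix.transpose_mul]
    calc Gi * (yᵀ * xᵀ) * G = Gi * yᵀ * 1 * xᵀ * G := by rw [mul_one, ← mul_assoc Gi]
      _ = Gi * yᵀ * G * (Gi * xᵀ * G) := by rw [← hGGi]; simp only [mul_assoc]
  · intro x
    rw [tG_apply27, tG_apply27, Matrix.transpose_mul, Matrix.transpose_mul, Matrix.transpose_transpose, hGt, hGit]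
    calc Gi * (ε • G * (x * ε • Gi)) * G = (ε * ε) • (Gi * G * x * (Gi * G)) := by
          simp only [Matrix.smul_mul, Matrix.mul_smul, smul_smul, mul_assoc]
      _ = x := by rw [hGiG, one_mul, mul_one, hε, one_smul]
  · intro x
    rw [tG_apply27, tG_apply27, Matrix.conjTranspose_mul, Matrix.conjTranspose_mul]
    have e1 : (xᴴ)ᵀ = (xᵀ)ᴴ := rfl
    rw [e1]
    calc Gi * (xᵀ)ᴴ * G = c • (Gi * (xᵀ)ᴴ * Giᴴ) := by
          conv_lhs => rw [hG2]
          rw [mul_smul_comm]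
      _ = Gᴴ * ((xᵀ)ᴴ * Giᴴ) := by rw [hG1, smul_mul_assoc, mul_assoc]
  · intro x
    rw [tG_apply27, mul_assoc, Matrix.trace_mul_comm, mul_assoc, hGGi, mul_one, Matrix.trace_transpose]
  · intro x hx y hy
    rw [mem_LBB27, cj_sub, ← cj_mul h1, ← cj_mul h1]
    exact hbr _ (mem_LBB27.1 hx) _ (mem_LBB27.1 hy)
  · rw [mem_LBB27, cj_cj h2]
    exact hh

theorem tr_of_skew98 {Q' Qi : Matrix n n ℂ} (hQ1 : Q' * Qi = 1) (hQ2 : Qi * Q' = 1) {Y : Matrix n n ℂ}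
    (hY : Yᵀ * Q' + Q' * Y = 0) : Y.trace = 0 := by
  have e1 : Yᵀ * Q' = -(Q' * Y) := eq_neg_of_add_eq_zero_left hY
  have e2 : Y.trace = -Y.trace := by
    calc Y.trace = (Yᵀ * (Q' * Qi)).trace := by rw [hQ1, mul_one, Matrix.trace_transpose]
      _ = -(Q' * Y * Qi).trace := by rw [← mul_assoc, e1, neg_mul, Matrix.trace_neg]
      _ = -Y.trace := by rw [mul_assoc, Matrix.trace_mul_comm, mul_assoc, hQ2, mul_one]
  exact self_eq_neg.1 e2

/-- **The extreme degree, matrix form.** -/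
theorem ext_matrix98 [Nonempty n] {ε : ℂ} (hε : ε * ε = 1) {Q' Qi : Matrix n n ℂ} (hQs : Q'ᵀ = ε • Q')
    (hQ1 : Q' * Qi = 1) (hQ2 : Qi * Q' = 1)
    {L : Submodule ℂ (Matrix n n ℂ)} (hbr : ∀ X ∈ L, ∀ Y ∈ L, X * Y - Y * X ∈ L)
    (hirr : ∀ W : Submodule ℂ (n → ℂ), (∀ X ∈ L, ∀ w ∈ W, X *ᵥ w ∈ W) → W = ⊥ ∨ W = ⊤)
    (hsk : ∀ X ∈ L, Xᵀ * Q' + Q' * X = 0) {h : Matrix n n ℂ} (hh : h ∈ L)
    {E : ℝ → Matrix n n ℂ} {Λ : Finset ℝ} (hE : SD h E Λ) {t : ℝ} (ht : 0 < t) (htop : ∀ μ, E μ ≠ 0 → μ ≤ t)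
    (hne : Ld L h (2 * t) ≠ ⊥) : E t - E (-t) ∈ L := by
  obtain ⟨B, Bi, h1, h2, h3, h4⟩ := exists_herm L hbr hirr (fun X hX => tr_of_skew98 hQ1 hQ2 (hsk X hX)) hh hE
  have D := dat_irr98 hε hQs hQ1 hQ2 hbr hirr hsk hh hE h1 h2 h3 h4
  have key := D.ext98 ht (by
    intro μ hμ
    apply htop
    intro h0
    apply hμ
    beta_reduce
    rw [h0, cj_zero]) (by
    obtain ⟨x, hx, hx0⟩ := (Submodule.ne_bot_iff _).1 hne
    rw [Submodule.ne_bot_iff]
    refine ⟨cj B Bi x, ?_, ?_⟩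
    · rw [mem_Ld, mem_LBB27, cj_cj h2]
      refine ⟨hx.1, ?_⟩
      rw [cj_mul h2, cj_mul h2, ← cj_sub, ← cj_smul]
      congr 1
      exact hx.2
    · intro h0
      apply hx0
      have := congrArg (cj Bi B) h0
      rwa [cj_cj h2, cj_zero] at this)
  change cj B Bi (E t) - cj B Bi (E (-t)) ∈ LBB27 L B Bi at key
  rw [← cj_sub, mem_LBB27, cj_cj h2] at key
  exact key

/-- the eigenprojections of `E t - E (-t)` -/
noncomputable def E3_98 (E : ℝ → Matrix n n ℂ) (t : ℝ) : ℝ → Matrix n n ℂ := fun μ =>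
  if μ = 1 then E t else if μ = -1 then E (-t) else if μ = 0 then 1 - E t - E (-t) else 0

theorem E3_one98 (E : ℝ → Matrix n n ℂ) (t : ℝ) : E3_98 E t 1 = E t := if_pos rfl

theorem E3_neg98 (E : ℝ → Matrix n n ℂ) (t : ℝ) : E3_98 E t (-1) = E (-t) := by
  unfold E3_98
  rw [if_neg (by norm_num), if_pos rfl]

theorem E3_zero98 (E : ℝ → Matrix n n ℂ) (t : ℝ) : E3_98 E t 0 = 1 - E t - E (-t) := by
  unfold E3_98
  rw [if_neg (by norm_num), if_neg (by norm_num), if_pos rfl]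

theorem E3_three98 (E : ℝ → Matrix n n ℂ) (t : ℝ) : Three27 (E3_98 E t) := by
  intro μ h1 h2 h3
  unfold E3_98
  rw [if_neg h1, if_neg h3, if_neg h2]

theorem E3_sd98 {h : Matrix n n ℂ} {E : ℝ → Matrix n n ℂ} {Λ : Finset ℝ} (hE : SD h E Λ) {t : ℝ} (ht : 0 < t) :
    SD (E t - E (-t)) (E3_98 E t) {1, 0, -1} := by
  have hne : t ≠ -t := by intro h0; linarith
  have a1 : E t * E t = E t := by rw [hE.mul, if_pos rfl]
  have a2 : E (-t) * E (-t) = E (-t) := by rw [hE.mul, if_pos rfl]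
  have a3 : E t * E (-t) = 0 := by rw [hE.mul, if_neg hne]
  have a4 : E (-t) * E t = 0 := by rw [hE.mul, if_neg (Ne.symm hne)]
  refine ⟨?_, ?_, ?_⟩
  · intro μ ν
    by_cases h1 : μ = 1
    · subst h1
      rw [E3_one98]
      by_cases k1 : ν = 1
      · subst k1
        rw [E3_one98, a1, if_pos rfl]
      rw [if_neg (Ne.symm k1)]
      by_cases k2 : ν = -1
      · subst k2
        rw [E3_neg98, a3]
      by_cases k3 : ν = 0
      · subst k3
        rw [E3_zero98, mul_sub, mul_sub, a1, a3, mul_one]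
        simp
      · rw [E3_three98 E t ν k1 k3 k2, mul_zero]
    by_cases h2 : μ = -1
    · subst h2
      rw [E3_neg98]
      by_cases k1 : ν = 1
      · subst k1
        rw [E3_one98, a4, if_neg (by norm_num)]
      by_cases k2 : ν = -1
      · subst k2
        rw [E3_neg98, a2, if_pos rfl]
      by_cases k3 : ν = 0
      · subst k3
        rw [E3_zero98, mul_sub, mul_sub, a2, a4, mul_one, if_neg (by norm_num)]
        simp
      · rw [E3_three98 E t ν k1 k3 k2, mul_zero, if_neg (Ne.symm k2)]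
    by_cases h3 : μ = 0
    · subst h3
      rw [E3_zero98]
      by_cases k1 : ν = 1
      · subst k1
        rw [E3_one98, sub_mul, sub_mul, a1, a4, one_mul, if_neg (by norm_num)]
        simp
      by_cases k2 : ν = -1
      · subst k2
        rw [E3_neg98, sub_mul, sub_mul, a2, a3, one_mul, if_neg (by norm_num)]
        simp
      by_cases k3 : ν = 0
      · subst k3
        rw [E3_zero98, if_pos rfl, sub_mul, sub_mul, mul_sub, mul_sub, mul_sub, mul_sub, mul_sub, mul_sub, a1, a2, a3,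
          a4]
        simp
      · rw [E3_three98 E t ν k1 k3 k2, mul_zero, if_neg (Ne.symm k3)]
    · rw [E3_three98 E t μ h1 h3 h2, zero_mul]
      by_cases k : μ = ν
      · rw [if_pos k]
      · rw [if_neg k]
  · rw [Finset.sum_insert (by norm_num), Finset.sum_insert (by norm_num), Finset.sum_singleton, E3_one98, E3_zero98,
      E3_neg98]
    abel
  · rw [Finset.sum_insert (by norm_num), Finset.sum_insert (by norm_num), Finset.sum_singleton, E3_one98, E3_zero98,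
      E3_neg98]
    push_cast
    module

/-- the shape of the elements of extreme degree -/
theorem ext_shape98 {h : Matrix n n ℂ} {E : ℝ → Matrix n n ℂ} {Λ : Finset ℝ} (hE : SD h E Λ) {t : ℝ}
    (htop : ∀ μ, E μ ≠ 0 → μ ≤ t) (hbot : ∀ μ, E μ ≠ 0 → -t ≤ μ) {x : Matrix n n ℂ} :
    h * x - x * h = ((2 * t : ℝ) : ℂ) • x ↔ E t * x * E (-t) = x := by
  have a1 : E t * E t = E t := by rw [hE.mul, if_pos rfl]
  have a2 : E (-t) * E (-t) = E (-t) := by rw [hE.mul, if_pos rfl]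
  constructor
  · intro hx
    have h1 : ∀ μ ν : ℝ, E μ * x * E ν ≠ 0 → μ = t ∧ ν = -t := by
      intro μ ν h0
      have e1 : E μ * (h * x - x * h) * E ν = ((μ : ℂ) - ν) • (E μ * x * E ν) := by
        rw [mul_sub, sub_mul, ← mul_assoc, hE.mul_l, ← mul_assoc, mul_assoc (E μ * x), hE.l_mul, smul_mul_assoc,
          smul_mul_assoc, mul_smul_comm, sub_smul]
      rw [hx, mul_smul_comm, smul_mul_assoc] at e1
      have e2 : (((2 * t : ℝ) : ℂ) - ((μ : ℂ) - ν)) • (E μ * x * E ν) = 0 := by rw [sub_smul, e1, sub_self]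
      have e3 := (smul_eq_zero.1 e2).resolve_right h0
      have e4 : 2 * t - (μ - ν) = 0 := by exact_mod_cast e3
      have e5 : E μ ≠ 0 := by
        intro h3
        apply h0
        rw [h3, zero_mul, zero_mul]
      have e6 : E ν ≠ 0 := by
        intro h3
        apply h0
        rw [h3, mul_zero]
      have e7 := htop _ e5
      have e8 := hbot _ e6
      constructor <;> linarith
    have h2 : ∀ M : Matrix n n ℂ, M = ∑ μ ∈ Λ, ∑ ν ∈ Λ, E μ * M * E ν := by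
      intro M
      simp_rw [← Finset.mul_sum, ← Finset.sum_mul, hE.sum, mul_one, one_mul]
    have h3 : ∀ μ ∈ Λ, ∀ ν ∈ Λ, E μ * x * E ν = E μ * (E t * x * E (-t)) * E ν := by
      intro μ _ ν _
      by_cases h4 : μ = t ∧ ν = -t
      · rw [h4.1, h4.2, ← mul_assoc, ← mul_assoc, a1, mul_assoc (E t * x), a2]
      · have h5 : E μ * x * E ν = 0 := by
          by_contra h6
          exact h4 (h1 μ ν h6)
        rw [h5, ← mul_assoc, ← mul_assoc, mul_assoc _ (E (-t)), hE.mul, hE.mul]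
        by_cases h6 : μ = t
        · by_cases h7 : -t = ν
          · exact absurd ⟨h6, h7.symm⟩ h4
          · rw [if_neg h7, mul_zero]
        · rw [if_neg h6, zero_mul, zero_mul]
    conv_rhs => rw [h2 x]
    rw [h2 (E t * x * E (-t))]
    exact Finset.sum_congr rfl fun μ hμ => Finset.sum_congr rfl fun ν hν => (h3 μ hμ ν hν).symm
  · intro hx
    have e1 : h * x = (t : ℂ) • x := by
      conv_lhs => rw [← hx, ← mul_assoc, ← mul_assoc, hE.l_mul, smul_mul_assoc, smul_mul_assoc, hx]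
    have e2 : x * h = ((-t : ℝ) : ℂ) • x := by
      conv_lhs => rw [← hx, mul_assoc, hE.mul_l, mul_smul_comm, hx]
    rw [e1, e2]
    push_cast
    module

/-- the elements of degree two for `E t - E (-t)` -/
theorem E3_Ld98 {h : Matrix n n ℂ} {E : ℝ → Matrix n n ℂ} {Λ : Finset ℝ} (hE : SD h E Λ) {t : ℝ} (ht : 0 < t)
    (htop : ∀ μ, E μ ≠ 0 → μ ≤ t) (hbot : ∀ μ, E μ ≠ 0 → -t ≤ μ) (L : Submodule ℂ (Matrix n n ℂ)) :
    Ld L (E t - E (-t)) 2 = Ld L h (2 * t) := by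
  ext x
  rw [mem_Ld, mem_Ld, ext_shape98 hE htop hbot]
  refine and_congr_right fun _ => ?_
  have h1 : ∀ μ, E3_98 E t μ ≠ 0 → μ = 1 ∨ μ = 0 ∨ μ = -1 := by
    intro μ hμ
    by_contra! h2
    exact hμ (E3_three98 E t μ h2.1 h2.2.1 h2.2.2)
  have h2 := ext_shape98 (x := x) (E3_sd98 hE ht) (t := 1) (by
    intro μ hμ
    rcases h1 μ hμ with h3 | h3 | h3 <;> rw [h3] <;> norm_num) (by
    intro μ hμ
    rcases h1 μ hμ with h3 | h3 | h3 <;> rw [h3] <;> norm_num)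
  rw [E3_one98, E3_neg98, mul_one] at h2
  exact h2

/-- the eigenvalues are symmetric -/
theorem E_symm98 {Q' Qi : Matrix n n ℂ} (hQ1 : Q' * Qi = 1) (hQ2 : Qi * Q' = 1) {h : Matrix n n ℂ}
    (hh : hᵀ * Q' + Q' * h = 0) {E : ℝ → Matrix n n ℂ} {Λ : Finset ℝ} (hE : SD h E Λ) (μ : ℝ) :
    E (-μ) = Qi * (E μ)ᵀ * Q' := by
  have hF : SD (-h) (fun ν => Qi * (E ν)ᵀ * Q') Λ := by
    refine ⟨fun μ ν => ?_, ?_, ?_⟩
    · calc Qi * (E μ)ᵀ * Q' * (Qi * (E ν)ᵀ * Q') = Qi * (E μ)ᵀ * (Q' * Qi) * (E ν)ᵀ * Q' := by simp only [mul_assoc]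
        _ = Qi * (E ν * E μ)ᵀ * Q' := by rw [hQ1, mul_one, Matrix.transpose_mul]; simp only [mul_assoc]
        _ = if μ = ν then Qi * (E μ)ᵀ * Q' else 0 := by
          rw [hE.mul]
          by_cases h1 : ν = μ
          · rw [if_pos h1, if_pos h1.symm, h1]
          · rw [if_neg h1, if_neg (Ne.symm h1), Matrix.transpose_zero, mul_zero, zero_mul]
    · rw [← Finset.sum_mul, ← Finset.mul_sum, ← Matrix.transpose_sum, hE.sum, Matrix.transpose_one, mul_one, hQ2]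
    · have e1 : -h = Qi * hᵀ * Q' := by
        have e2 : hᵀ * Q' = -(Q' * h) := eq_neg_of_add_eq_zero_left hh
        rw [mul_assoc, e2, mul_neg, ← mul_assoc, hQ2, one_mul]
      rw [e1]
      conv_lhs => rw [hE.eq, Matrix.transpose_sum, Finset.mul_sum, Finset.sum_mul]
      refine Finset.sum_congr rfl fun ν _ => ?_
      rw [Matrix.transpose_smul, mul_smul_comm, smul_mul_assoc]
  have hz : ∀ ν : ℝ, ν ≠ -μ → E ν * (Qi * (E μ)ᵀ * Q') = 0 := by
    intro ν hν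
    have e1 : E ν * (-h * (Qi * (E μ)ᵀ * Q')) = (μ : ℂ) • (E ν * (Qi * (E μ)ᵀ * Q')) := by
      rw [hF.l_mul μ, mul_smul_comm]
    rw [neg_mul, mul_neg, ← mul_assoc, hE.mul_l, smul_mul_assoc] at e1
    have e2 : ((μ : ℂ) + ν) • (E ν * (Qi * (E μ)ᵀ * Q')) = 0 := by rw [add_smul, ← e1]; simp
    rcases smul_eq_zero.1 e2 with e3 | e3
    · exfalso
      have e4 : μ + ν = 0 := by exact_mod_cast e3
      exact hν (by linarith)
    · exact e3
  have hz' : ∀ ν : ℝ, ν ≠ μ → E (-μ) * (Qi * (E ν)ᵀ * Q') = 0 := by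
    intro ν hν
    have e1 : E (-μ) * (-h * (Qi * (E ν)ᵀ * Q')) = (ν : ℂ) • (E (-μ) * (Qi * (E ν)ᵀ * Q')) := by
      rw [hF.l_mul ν, mul_smul_comm]
    rw [neg_mul, mul_neg, ← mul_assoc, hE.mul_l, smul_mul_assoc] at e1
    have e2 : ((ν : ℂ) - μ) • (E (-μ) * (Qi * (E ν)ᵀ * Q')) = 0 := by
      rw [sub_smul, ← e1]
      push_cast
      module
    rcases smul_eq_zero.1 e2 with e3 | e3
    · exfalso
      have e4 : ν - μ = 0 := by exact_mod_cast e3
      exact hν (by linarith)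
    · exact e3
  have e1 : Qi * (E μ)ᵀ * Q' = E (-μ) * (Qi * (E μ)ᵀ * Q') := by
    conv_lhs => rw [← one_mul (Qi * (E μ)ᵀ * Q'), ← hE.sum, Finset.sum_mul]
    by_cases h1 : -μ ∈ Λ
    · exact Finset.sum_eq_single_of_mem _ h1 fun ν _ hν => hz ν hν
    · rw [hE.supp h1, zero_mul]
      exact Finset.sum_eq_zero fun ν hν => hz ν fun h => h1 (h ▸ hν)
  have e2 : E (-μ) = E (-μ) * (Qi * (E μ)ᵀ * Q') := by
    conv_lhs => rw [← mul_one (E (-μ)), ← hF.sum, Finset.mul_sum]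
    by_cases h1 : μ ∈ Λ
    · exact Finset.sum_eq_single_of_mem _ h1 fun ν _ hν => hz' ν hν
    · rw [hE.supp h1, Matrix.transpose_zero, mul_zero, zero_mul, mul_zero]
      exact Finset.sum_eq_zero fun ν hν => hz' ν fun h => h1 (h ▸ hν)
  rw [e1]
  exact e2

/-- **The gap theorem for any levels**, symmetric form. -/
theorem gap_levels98 {Q' Qi : Matrix n n ℂ} (hQs : Q'ᵀ = Q') (hQ1 : Q' * Qi = 1) (hQ2 : Qi * Q' = 1)
    {L : Submodule ℂ (Matrix n n ℂ)} (hbr : ∀ X ∈ L, ∀ Y ∈ L, X * Y - Y * X ∈ L)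
    (hirr : ∀ W : Submodule ℂ (n → ℂ), (∀ X ∈ L, ∀ w ∈ W, X *ᵥ w ∈ W) → W = ⊥ ∨ W = ⊤)
    (hsk : ∀ X ∈ L, Xᵀ * Q' + Q' * X = 0) (hsmp : Smp L) {h : Matrix n n ℂ} (hh : h ∈ L)
    {E : ℝ → Matrix n n ℂ} {Λ : Finset ℝ} (hE : SD h E Λ) {t : ℝ} (ht : 0 < t) (htop : ∀ μ, E μ ≠ 0 → μ ≤ t)
    (hmid : ∃ μ, μ ≠ t ∧ μ ≠ -t ∧ E μ ≠ 0) :
    Ld L h (2 * t) = ⊥ ∨ (Module.finrank ℂ (Ld L h (2 * t)) = 1 ∧ Even (E t).rank) ∨
      ∀ X : Matrix n n ℂ, Xᵀ * Q' + Q' * X = 0 → X ∈ L := by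
  classical
  obtain ⟨μ, m1, m2, m3⟩ := hmid
  have hne : Nonempty n := by
    by_contra h0
    rw [not_nonempty_iff] at h0
    exact m3 (Subsingleton.elim _ _)
  by_cases h0 : Ld L h (2 * t) = ⊥
  · exact Or.inl h0
  have h1 := ext_matrix98 (ε := 1) (one_mul 1) (by rw [one_smul]; exact hQs) hQ1 hQ2 hbr hirr hsk hh hE ht htop h0
  have hbot : ∀ μ, E μ ≠ 0 → -t ≤ μ := by
    intro μ hμ
    have h2 : E (-μ) ≠ 0 := by
      intro h3
      apply hμ
      have h4 := E_symm98 hQ1 hQ2 (hsk h hh) hE (-μ)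
      rw [neg_neg, h3, Matrix.transpose_zero, mul_zero, zero_mul] at h4
      exact h4
    have := htop _ h2
    linarith
  have h3 : E3_98 E t 0 ≠ 0 := by
    intro h4
    apply m3
    rw [E3_zero98] at h4
    have h5 : (1 - E t - E (-t)) * E μ = E μ := by
      rw [sub_mul, sub_mul, hE.mul, hE.mul, if_neg (Ne.symm m1), if_neg (Ne.symm m2), one_mul, sub_zero, sub_zero]
    rw [← h5, h4, zero_mul]
  have key := gap_matrix hQs hQ1 hQ2 hbr hirr hsk hsmp h1 (E3_sd98 hE ht) (E3_three98 E t) h3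
  rw [E3_Ld98 hE ht htop hbot, E3_one98] at key
  exact key

end MH
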