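import Pool.Agent.Helper98.MH.Idl
import Pool.Agent.Helper27.GP.Alg

/-!
Project PG (MP_b8862a_ag): the extreme degree. If `L` contains an element which maps the lowest eigenspace of `h` to the
highest one, then `L` contains the difference of the projections to these two eigenspaces.
-/

set_option linter.unusedSectionVars false
set_option linter.unusedVariables false

open Matrix

namespace MH

variable {n : Type*} [Fintype n] [DecidableEq n]
variable {h : Matrix n n ℂ} {E : ℝ → Matrix n n ℂ} {Λ : Finset ℝ}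
variable {τ : Matrix n n ℂ →ₗ[ℂ] Matrix n n ℂ} {L : Submodule ℂ (Matrix n n ℂ)}

namespace Dat

variable (D : Dat τ L h E Λ) {t : ℝ}
include D

lemma Ld_comm_E98 {l : Matrix n n ℂ} (hl : l ∈ Ld L h 0) (μ : ℝ) : E μ * l = l * E μ := by
  have h1 := D.Ld_mul_E hl μ
  rw [add_zero] at h1
  have h2 : (lᴴ) ∈ Ld L h 0 := by
    have := D.Ld_star27 hl
    rwa [neg_zero] at this
  have h3 := D.Ld_mul_E h2 μ
  rw [add_zero] at h3
  have h4 := congrArg conjTranspose h3
  rw [conjTranspose_mul, conjTranspose_mul, conjTranspose_mul, D.spec.star,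
    conjTranspose_conjTranspose, ← mul_assoc] at h4
  rw [h4, ← h1]

/-- Elements of negative degree do not reach the top. -/
lemma E_neg98 (htop : ∀ μ, E μ ≠ 0 → μ ≤ t) {ν : ℝ} (hν : ν < 0) {y : Matrix n n ℂ} (hy : y ∈ Ld L h ν) :
    E t * y = 0 := by
  have h1 : E t * y = ∑ μ ∈ Λ, E t * y * E μ := by rw [← Finset.mul_sum, D.spec.sum, mul_one]
  rw [h1]
  refine Finset.sum_eq_zero fun μ _ => ?_
  by_cases h2 : t - μ = ν
  · have h3 : E μ = 0 := by
      by_contra h4
      have := htop μ h4
      linarith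
    rw [h3, mul_zero]
  · exact D.Ld_block hy h2

/-- The top eigenspace is irreducible under the elements of degree zero. -/
theorem top_irr98 (htop : ∀ μ, E μ ≠ 0 → μ ≤ t) {W₀ : Submodule ℂ (n → ℂ)} (hne : W₀ ≠ ⊥)
    (hW : ∀ w ∈ W₀, E t *ᵥ w = w) (hst : ∀ x ∈ Ld L h 0, ∀ w ∈ W₀, x *ᵥ w ∈ W₀) (u : n → ℂ) : E t *ᵥ u ∈ W₀ := by
  obtain ⟨V', hV'⟩ : ∃ V' : Submodule ℂ (n → ℂ), V' = sInf {U : Submodule ℂ (n → ℂ) | W₀ ≤ U ∧
    ∀ ν : ℝ, ν < 0 → ∀ y ∈ Ld L h ν, ∀ u ∈ U, y *ᵥ u ∈ U} := ⟨_, rfl⟩
  have hmin : ∀ U : Submodule ℂ (n → ℂ), W₀ ≤ U → (∀ ν : ℝ, ν < 0 → ∀ y ∈ Ld L h ν, ∀ u ∈ U, y *ᵥ u ∈ U) →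
      V' ≤ U := fun U h1 h2 => by
    rw [hV']
    exact sInf_le ⟨h1, h2⟩
  have hW0 : W₀ ≤ V' := by
    rw [hV']
    exact le_sInf fun U hU => hU.1
  have hneg : ∀ ν : ℝ, ν < 0 → ∀ y ∈ Ld L h ν, ∀ u ∈ V', y *ᵥ u ∈ V' := by
    intro ν hν y hy u hu
    rw [hV', Submodule.mem_sInf] at hu ⊢
    intro U hU
    exact hU.2 ν hν y hy u (hu U hU)
  -- the elements of nonnegative degree
  have hpos : ∀ u ∈ V', ∀ ν : ℝ, 0 ≤ ν → ∀ x ∈ Ld L h ν, x *ᵥ u ∈ V' := by
    have h1 : V' ≤ { carrier := {u | u ∈ V' ∧ ∀ ν : ℝ, 0 ≤ ν → ∀ x ∈ Ld L h ν, x *ᵥ u ∈ V'}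
                     add_mem' := fun {a b} ha hb => ⟨V'.add_mem ha.1 hb.1, fun ν hν x hx => by
                       rw [Matrix.mulVec_add]
                       exact V'.add_mem (ha.2 ν hν x hx) (hb.2 ν hν x hx)⟩
                     zero_mem' := ⟨V'.zero_mem, fun ν hν x hx => by
                       rw [Matrix.mulVec_zero]
                       exact V'.zero_mem⟩
                     smul_mem' := fun c a ha => ⟨V'.smul_mem c ha.1, fun ν hν x hx => by
                       rw [Matrix.mulVec_smul]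
                       exact V'.smul_mem c (ha.2 ν hν x hx)⟩ } := by
      apply hmin
      · intro w hw
        refine ⟨hW0 hw, fun ν hν x hx => ?_⟩
        rcases hν.eq_or_lt with h2 | h2
        · subst h2
          exact hW0 (hst x hx w hw)
        · have h3 : x * E t = 0 := by
            rw [D.Ld_mul_E hx]
            have h4 : E (t + ν) = 0 := by
              by_contra h5
              have := htop _ h5
              linarith
            rw [h4, zero_mul, zero_mul]
          rw [← hW w hw, Matrix.mulVec_mulVec, h3, Matrix.zero_mulVec]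
          exact V'.zero_mem
      · intro ν' hν' y hy u hu
        refine ⟨hneg ν' hν' y hy u hu.1, fun ν hν x hx => ?_⟩
        have h2 : x *ᵥ (y *ᵥ u) = y *ᵥ (x *ᵥ u) + (x * y - y * x) *ᵥ u := by
          rw [Matrix.mulVec_mulVec, Matrix.mulVec_mulVec, Matrix.sub_mulVec]
          abel
        rw [h2]
        refine V'.add_mem (hneg ν' hν' y hy _ (hu.2 ν hν x hx)) ?_
        have h3 := Ld_bracket D.br hx hy
        rcases le_or_gt 0 (ν + ν') with h4 | h4
        · exact hu.2 _ h4 _ h3
        · exact hneg _ h4 _ h3 u hu.1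
    exact fun u hu => (h1 hu).2
  have hstab : ∀ x ∈ L, ∀ u ∈ V', x *ᵥ u ∈ V' := by
    intro x hx u hu
    rw [D.spec.sum_cmp x, Matrix.sum_mulVec]
    refine V'.sum_mem fun ν _ => ?_
    have h1 := D.cmp_mem_Ld hx ν
    rcases le_or_gt 0 ν with h4 | h4
    · exact hpos u hu ν h4 _ h1
    · exact hneg ν h4 _ h1 u hu
  have htopV : V' = ⊤ := by
    rcases D.stable V' hstab with h1 | h1
    · exfalso
      apply hne
      rw [eq_bot_iff, ← h1]
      exact hW0
    · exact h1
  have h1 : V' ≤ { carrier := {u | E t *ᵥ u ∈ W₀}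
                   add_mem' := fun {a b} ha hb => by
                     change E t *ᵥ (a + b) ∈ W₀
                     rw [Matrix.mulVec_add]
                     exact W₀.add_mem ha hb
                   zero_mem' := by
                     change E t *ᵥ (0 : n → ℂ) ∈ W₀
                     rw [Matrix.mulVec_zero]
                     exact W₀.zero_mem
                   smul_mem' := fun c a ha => by
                     change E t *ᵥ (c • a) ∈ W₀
                     rw [Matrix.mulVec_smul]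
                     exact W₀.smul_mem c ha } := by
    apply hmin
    · intro w hw
      change E t *ᵥ w ∈ W₀
      rw [hW w hw]
      exact hw
    · intro ν hν y hy u _
      change E t *ᵥ (y *ᵥ u) ∈ W₀
      rw [Matrix.mulVec_mulVec, D.E_neg98 htop hν hy, Matrix.zero_mulVec]
      exact W₀.zero_mem
  have h2 : u ∈ V' := by rw [htopV]; exact Submodule.mem_top
  exact h1 h2

/-- A matrix on the top eigenspace that commutes with the elements of degree zero is a scalar. -/
theorem top_scalar98 (htop : ∀ μ, E μ ≠ 0 → μ ≤ t) {T : Matrix n n ℂ} (h1 : E t * T = T) (h2 : T * E t = T)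
    (hT : ∀ x ∈ Ld L h 0, T * x = x * T) : ∃ c : ℂ, T = c • E t := by
  by_cases h0 : E t = 0
  · exact ⟨0, by rw [← h1, h0, zero_mul, smul_zero]⟩
  have hEE : E t * E t = E t := by rw [D.spec.mul, if_pos rfl]
  -- an eigenvector in the top eigenspace
  obtain ⟨U, hU⟩ : ∃ U : Submodule ℂ (n → ℂ), U = LinearMap.range (Matrix.toLin' (E t)) := ⟨_, rfl⟩
  have hUE : ∀ u ∈ U, E t *ᵥ u = u := by
    intro u hu
    rw [hU] at hu
    obtain ⟨v, rfl⟩ := hu
    rw [Matrix.toLin'_apply, Matrix.mulVec_mulVec, hEE]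
  have hUT : ∀ u ∈ U, Matrix.toLin' T u ∈ U := by
    intro u hu
    rw [hU]
    refine ⟨T *ᵥ u, ?_⟩
    rw [Matrix.toLin'_apply, Matrix.toLin'_apply, Matrix.mulVec_mulVec, h1]
  have hUn : Nontrivial U := by
    rw [Submodule.nontrivial_iff_ne_bot]
    intro h3
    apply h0
    rw [h3] at hU
    have h4 : Matrix.toLin' (E t) = 0 := LinearMap.range_eq_bot.1 hU.symm
    exact (LinearEquiv.map_eq_zero_iff _).1 h4
  obtain ⟨c, hc⟩ := Module.End.exists_eigenvalue ((Matrix.toLin' T).restrict hUT)
  obtain ⟨v, hv⟩ := hc.exists_hasEigenvector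
  have hv1 : T *ᵥ (v : n → ℂ) = c • (v : n → ℂ) := by
    have h3 := hv.apply_eq_smul
    have h4 := congrArg Subtype.val h3
    simpa [Matrix.toLin'_apply] using h4
  refine ⟨c, ?_⟩
  have key := D.top_irr98 (W₀ := { carrier := {u | E t *ᵥ u = u ∧ T *ᵥ u = c • u}
                                   add_mem' := fun {a b} ha hb => ⟨by rw [Matrix.mulVec_add, ha.1, hb.1], by
                                     rw [Matrix.mulVec_add, ha.2, hb.2, smul_add]⟩
                                   zero_mem' := ⟨by rw [Matrix.mulVec_zero], by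
                                     rw [Matrix.mulVec_zero, smul_zero]⟩
                                   smul_mem' := fun d a ha => ⟨by rw [Matrix.mulVec_smul, ha.1], by
                                     rw [Matrix.mulVec_smul, ha.2, smul_comm]⟩ }) htop (by
      intro h3
      apply hv.2
      have h4 : (v : n → ℂ) ∈ (⊥ : Submodule ℂ (n → ℂ)) := by
        rw [← h3]
        exact ⟨hUE v v.2, hv1⟩
      exact Subtype.ext ((Submodule.mem_bot ℂ).1 h4)) (fun w hw => hw.1) (by
      intro x hx w hw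
      refine ⟨?_, ?_⟩
      · rw [Matrix.mulVec_mulVec, D.Ld_comm_E98 hx, ← Matrix.mulVec_mulVec, hw.1]
      · rw [Matrix.mulVec_mulVec, hT x hx, ← Matrix.mulVec_mulVec, hw.2, Matrix.mulVec_smul])
  have h5 : T = c • E t := by
    rw [← h2]
    refine Dat.mat_ext fun u => ?_
    rw [← Matrix.mulVec_mulVec, (key u).2, Matrix.smul_mulVec]
  exact h5

/-- **The extreme degree.** -/
theorem ext98 (ht : 0 < t) (htop : ∀ μ, E μ ≠ 0 → μ ≤ t) (hne : Ld L h (2 * t) ≠ ⊥) : E t - E (-t) ∈ L := by
  have hbot : ∀ μ, E μ ≠ 0 → -t ≤ μ := by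
    intro μ hμ
    have h1 : E (-μ) ≠ 0 := by
      rw [← D.tauE]
      intro h2
      apply hμ
      rw [← D.inv.inv (E μ), h2, map_zero]
    have := htop _ h1
    linarith
  -- the shape of the elements of extreme degree
  have hx2 : ∀ x ∈ Ld L h (2 * t), E t * x = x ∧ x * E (-t) = x := by
    intro x hx
    have h1 : ∀ μ ∈ Λ, μ ≠ -t → x * E μ = 0 := by
      intro μ _ hμ
      rw [D.Ld_mul_E hx]
      by_cases h2 : E μ = 0
      · rw [h2, mul_zero]
      · have h3 : E (μ + 2 * t) = 0 := by
          by_contra h4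
          have h5 := htop _ h4
          have h6 := hbot _ h2
          exact hμ (by linarith)
        rw [h3, zero_mul, zero_mul]
    have h2 : x * E (-t) = x := by
      by_cases hm : -t ∈ Λ
      · conv_rhs => rw [← mul_one x, ← D.spec.sum, Finset.mul_sum, Finset.sum_eq_single_of_mem _ hm h1]
      · have h3 : x = 0 := by
          rw [← mul_one x, ← D.spec.sum, Finset.mul_sum]
          exact Finset.sum_eq_zero fun μ hμ => h1 μ hμ (fun h => hm (h ▸ hμ))
        rw [h3, zero_mul]
    refine ⟨?_, h2⟩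
    have h3 := D.Ld_mul_E hx (-t)
    rw [show -t + 2 * t = t by ring, mul_assoc, h2] at h3
    exact h3.symm
  have hxm : ∀ y ∈ Ld L h (-(2 * t)), E (-t) * y = y ∧ y * E t = y := by
    intro y hy
    have h1 : yᴴ ∈ Ld L h (2 * t) := by
      have := D.Ld_star27 hy
      rwa [neg_neg] at this
    obtain ⟨h2, h3⟩ := hx2 _ h1
    constructor
    · have h4 := congrArg conjTranspose h3
      rw [conjTranspose_mul, conjTranspose_conjTranspose, D.spec.star] at h4
      exact h4
    · have h4 := congrArg conjTranspose h2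
      rw [conjTranspose_mul, conjTranspose_conjTranspose, D.spec.star] at h4
      exact h4
  obtain ⟨M, hM⟩ : ∃ M : Submodule ℂ (Matrix n n ℂ), M = Submodule.span ℂ
    {z | ∃ x ∈ Ld L h (2 * t), ∃ y ∈ Ld L h (-(2 * t)), z = x * y - y * x} := ⟨_, rfl⟩
  have hgen : ∀ x ∈ Ld L h (2 * t), ∀ y ∈ Ld L h (-(2 * t)), x * y - y * x ∈ M := by
    intro x hx y hy
    rw [hM]
    exact Submodule.subset_span ⟨x, hx, y, hy, rfl⟩
  have hM0 : M ≤ Ld L h 0 := by
    rw [hM, Submodule.span_le]
    rintro _ ⟨x, hx, y, hy, rfl⟩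
    have h1 := Ld_bracket D.br hx hy
    rw [add_neg_cancel] at h1
    exact h1
  have hMbr : ∀ a ∈ Ld L h 0, ∀ z ∈ M, a * z - z * a ∈ M := by
    intro a ha z hz
    rw [hM] at hz
    induction hz using Submodule.span_induction with
    | mem z hz =>
      obtain ⟨x, hx, y, hy, rfl⟩ := hz
      have h1 := Ld_bracket D.br ha hx
      rw [zero_add] at h1
      have h2 := Ld_bracket D.br ha hy
      rw [zero_add] at h2
      have h3 : a * (x * y - y * x) - (x * y - y * x) * a =
          ((a * x - x * a) * y - y * (a * x - x * a)) + (x * (a * y - y * a) - (a * y - y * a) * x) := by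
        noncomm_ring
      rw [h3]
      exact M.add_mem (hgen _ h1 _ hy) (hgen _ hx _ h2)
    | zero => simp
    | add u v _ _ hu hv =>
      have h3 : a * (u + v) - (u + v) * a = (a * u - u * a) + (a * v - v * a) := by noncomm_ring
      rw [h3]
      exact M.add_mem hu hv
    | smul c u _ hu =>
      have h3 : a * (c • u) - (c • u) * a = c • (a * u - u * a) := by
        rw [mul_smul_comm, smul_mul_assoc, smul_sub]
      rw [h3]
      exact M.smul_mem c hu
  have hMst : ∀ z ∈ M, zᴴ ∈ M := by
    intro z hz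
    rw [hM] at hz
    induction hz using Submodule.span_induction with
    | mem z hz =>
      obtain ⟨x, hx, y, hy, rfl⟩ := hz
      have h1 : yᴴ ∈ Ld L h (2 * t) := by
        have := D.Ld_star27 hy
        rwa [neg_neg] at this
      have h2 := hgen _ h1 _ (D.Ld_star27 hx)
      rw [conjTranspose_sub, conjTranspose_mul, conjTranspose_mul]
      exact h2
    | zero => simp
    | add u v _ _ hu hv =>
      rw [conjTranspose_add]
      exact M.add_mem hu hv
    | smul c u _ hu =>
      rw [conjTranspose_smul]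
      exact M.smul_mem _ hu
  have hMsh : ∀ z ∈ M, z = E t * z + E (-t) * z := by
    intro z hz
    rw [hM] at hz
    induction hz using Submodule.span_induction with
    | mem z hz =>
      obtain ⟨x, hx, y, hy, rfl⟩ := hz
      obtain ⟨x1, x2⟩ := hx2 x hx
      obtain ⟨y1, y2⟩ := hxm y hy
      have h1 : E t * y = 0 := by rw [← y1, ← mul_assoc, D.spec.mul, if_neg (by linarith), zero_mul]
      have h2 : E (-t) * x = 0 := by rw [← x1, ← mul_assoc, D.spec.mul, if_neg (by linarith), zero_mul]
      rw [mul_sub, mul_sub, ← mul_assoc, ← mul_assoc, ← mul_assoc, ← mul_assoc, x1, h1, h2, y1]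
      simp [sub_eq_add_neg]
    | zero => simp
    | add u v _ _ hu hv =>
      rw [mul_add, mul_add]
      nth_rewrite 1 [hu]
      nth_rewrite 1 [hv]
      abel
    | smul c u _ hu =>
      rw [mul_smul_comm, mul_smul_comm, ← smul_add, ← hu]
  -- the projection of `h`
  obtain ⟨k, hk, hkp⟩ := decomp (I := M) h
  have hk0 := hM0 hk
  have hcomm : ∀ a ∈ Ld L h 0, a * k = k * a := by
    intro a ha
    have hd := hMbr a ha k hk
    have h1 : aᴴ ∈ Ld L h 0 := by
      have := D.Ld_star27 ha
      rwa [neg_zero] at this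
    have hg := hMbr _ h1 _ hd
    have h2 := hkp _ hg
    rw [mul_sub, Matrix.trace_sub, sub_eq_zero] at h2
    have h3 : ∀ y : Matrix n n ℂ, ((aᴴ * (a * k - k * a) - (a * k - k * a) * aᴴ)ᴴ * y).trace =
        ((a * k - k * a)ᴴ * (a * y - y * a)).trace := by
      intro y
      rw [conjTranspose_sub (aᴴ * _), conjTranspose_mul, conjTranspose_mul, conjTranspose_conjTranspose, sub_mul,
        mul_sub, Matrix.trace_sub, Matrix.trace_sub, mul_assoc]
      congr 1
      rw [mul_assoc, Matrix.trace_mul_comm, mul_assoc]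
    rw [h3, h3] at h2
    have h4 : a * h - h * a = 0 := by
      have h5 := ha.2
      rw [Complex.ofReal_zero, zero_smul, sub_eq_zero] at h5
      rw [h5, sub_self]
    rw [h4, mul_zero, Matrix.trace_zero] at h2
    have h5 : a * k - k * a = 0 := by
      apply eq_zero_of_trace
      rw [← h2]
      rfl
    exact sub_eq_zero.1 h5
  -- on the top eigenspace
  obtain ⟨c, hc⟩ := D.top_scalar98 htop (T := E t * k) (by
      rw [← mul_assoc, D.spec.mul, if_pos rfl]) (by
      rw [mul_assoc, ← D.Ld_comm_E98 hk0, ← mul_assoc, D.spec.mul, if_pos rfl]) (by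
      intro x hx
      rw [mul_assoc, ← hcomm x hx, ← mul_assoc, D.Ld_comm_E98 hx, mul_assoc])
  have hc' : E (-t) * k = -(c • E (-t)) := by
    have h1 := congrArg τ hc
    rw [D.inv.mul, D.tauE, D.sk k hk0.1, map_smul, D.tauE, neg_mul, ← D.Ld_comm_E98 hk0] at h1
    rw [← h1, neg_neg]
  have hkc : k = c • (E t - E (-t)) := by
    rw [hMsh k hk, hc, hc', smul_sub, sub_eq_add_neg]
  have hc0 : c ≠ 0 := by
    intro h0
    rw [h0, zero_smul] at hkc
    obtain ⟨x, hx, hx0⟩ := (Submodule.ne_bot_iff _).1 hne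
    have h1 := hkp _ (hgen x hx _ (D.Ld_star27 hx))
    rw [hkc, sub_zero] at h1
    have h2 : ((x * xᴴ - xᴴ * x)ᴴ * h).trace = (xᴴ * (h * x - x * h)).trace := by
      rw [conjTranspose_sub, conjTranspose_mul, conjTranspose_mul, conjTranspose_conjTranspose, sub_mul, mul_sub,
        Matrix.trace_sub, Matrix.trace_sub, mul_assoc, Matrix.trace_mul_comm, mul_assoc, mul_assoc]
    rw [h2, hx.2, mul_smul_comm, Matrix.trace_smul, smul_eq_zero] at h1
    rcases h1 with h1 | h1
    · have h3 : 2 * t = 0 := by exact_mod_cast h1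
      linarith
    · apply hx0
      apply eq_zero_of_trace
      rw [h1]
      rfl
  have h1 : E t - E (-t) = c⁻¹ • k := by rw [hkc, smul_smul, inv_mul_cancel₀ hc0, one_smul]
  rw [h1]
  exact L.smul_mem _ hk0.1

end Dat

end MH
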