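import Pool.Agent.Helper98.PF.Wrap
import Pool.Agent.Helper98.PF.Hodge

/-!
Project PG (MP_b8862a_ag), block P7: the predicate `Core` for three Hodge numbers `(s, h, s)`, from the theorem on Lie
algebras, and the two numerical conditions.
-/

set_option linter.unusedSectionVars false

open Matrix Module

attribute [local instance 100] LieRing.ofAssociativeRing

namespace MH

variable {n : Type*} [Fintype n] [DecidableEq n]

theorem SD.eig_ne98 {h : Matrix n n ℂ} {E : ℝ → Matrix n n ℂ} {Λ : Finset ℝ} (hE : SD h E Λ) {c : ℂ}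
    (hc : Module.End.eigenspace (Matrix.toLin' h) c ≠ ⊥) : ∃ μ : ℝ, E μ ≠ 0 ∧ c = (μ : ℂ) := by
  obtain ⟨v, hv, hv0⟩ := (Submodule.ne_bot_iff _).1 hc
  rw [Module.End.mem_eigenspace_iff, Matrix.toLin'_apply] at hv
  have h3 : v = ∑ ν ∈ Λ, E ν *ᵥ v := by
    rw [← Matrix.sum_mulVec, hE.sum, Matrix.one_mulVec]
  obtain ⟨ν, hν, hν0⟩ : ∃ ν ∈ Λ, E ν *ᵥ v ≠ 0 := by
    by_contra! hcon
    apply hv0
    rw [h3]
    exact Finset.sum_eq_zero hcon
  refine ⟨ν, ?_, ?_⟩
  · intro h0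
    rw [h0, Matrix.zero_mulVec] at hν0
    exact hν0 rfl
  · have e1 : E ν *ᵥ (h *ᵥ v) = (ν : ℂ) • (E ν *ᵥ v) := by
      rw [Matrix.mulVec_mulVec, hE.mul_l, Matrix.smul_mulVec]
    rw [hv, Matrix.mulVec_smul] at e1
    have e2 : (c - ν) • (E ν *ᵥ v) = 0 := by rw [sub_smul, e1, sub_self]
    rcases smul_eq_zero.1 e2 with e3 | e3
    · exact sub_eq_zero.1 e3
    · exact absurd e3 hν0

/-- `Core` for the Hodge numbers `(s, h, s)`, from the theorem on Lie subalgebras of endomorphisms. -/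
theorem core_three98 {m : ℤ} {r : ℤ → ℕ} {s h : ℕ} (h2 : 2 ≤ Fintype.card n) (r1 : r (m + 1) = s) (r0 : r m = h)
    (rr : ∀ p, p < m - 1 ∨ m + 1 < p → r p = 0)
    (core : ∀ ω : LinearMap.BilinForm ℂ (n → ℂ), ω.IsSymm → ω.Nondegenerate →
      ∀ L : LieSubalgebra ℂ (Module.End ℂ (n → ℂ)), LieAlgebra.IsSimple ℂ L →
      (∀ W : Submodule ℂ (n → ℂ), (∀ x ∈ L, ∀ u ∈ W, x u ∈ W) → W = ⊥ ∨ W = ⊤) →
      (∀ x ∈ L, ∀ u v, ω (x u) v = -ω u (x v)) →
      ∀ y ∈ L, (⨆ c : ℂ, Module.End.eigenspace y c) = ⊤ →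
        (∀ c : ℂ, Module.End.eigenspace y c ≠ ⊥ → c = 0 ∨ c = 1 ∨ c = -1) →
        finrank ℂ (Module.End.eigenspace y 1) = s → finrank ℂ (Module.End.eigenspace y 0) = h →
        ∀ x : Module.End ℂ (n → ℂ), (∀ u v, ω (x u) v = -ω u (x v)) → x ∈ L) : Core n m r := by
  intro Q' Qi hQ hQ1 hQ2 L hbr hirr hsk hs h' E Λ hh hE hint hr X hX
  have hrk : ∀ p : ℤ, finrank ℂ (Module.End.eigenspace (Matrix.toLin' h') (((p - m : ℤ) : ℝ) : ℂ)) = r p := fun p => by
    rw [hE.finrank_eig98, hr]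
  have h3 := core (Matrix.toBilin' Q') (form_symm98 hQ) (form_nondeg98 hQ1) (lieOf L hbr) (lieOf_simple hirr h2 hs)
    (lieOf_irr hirr) (lieOf_sk hsk) _ (toLin_mem_lieOf hh) hE.iSup_eig98 ?_ ?_ ?_ (Matrix.toLin' X) ?_
  · rw [mem_lieOf, LinearMap.toMatrix'_toLin'] at h3
    exact h3
  · intro c hc
    obtain ⟨μ, hμ, rfl⟩ := hE.eig_ne98 hc
    obtain ⟨p, hp⟩ := hint μ hμ
    have h4 : ¬ (p < m - 1 ∨ m + 1 < p) := by
      intro h5
      have h6 := hrk p
      rw [rr p h5, ← hp, Submodule.finrank_eq_zero] at h6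
      exact hc h6
    have h5 : p = m ∨ p = m + 1 ∨ p = m - 1 := by omega
    rcases h5 with h5 | h5 | h5
    · left
      rw [hp, h5]
      simp
    · right; left
      rw [hp, h5]
      simp
    · right; right
      rw [hp, h5]
      simp
  · have h4 := hrk (m + 1)
    rw [r1, show (((m + 1 - m : ℤ) : ℝ) : ℂ) = 1 by rw [add_sub_cancel_left]; simp] at h4
    exact h4
  · have h4 := hrk m
    rw [r0, show (((m - m : ℤ) : ℝ) : ℂ) = 0 by rw [sub_self]; simp] at h4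
    exact h4
  · intro u v
    rw [Matrix.toLin'_apply, Matrix.toLin'_apply]
    exact skew_iff98.1 hX u v

/-- The numbers `(s, h, s)` are indecomposable unless `h = 2 s`. -/
theorem indec_three98 {m : ℤ} {r : ℤ → ℕ} {s h : ℕ} (r1 : r (m + 1) = s) (r0 : r m = h)
    (rr : ∀ p, p < m - 1 ∨ m + 1 < p → r p = 0) (hh : h ≠ 2 * s) : NI.Indec (2 * m) r := by
  intro a f g hf hg hfg
  by_contra hcon
  push Not at hcon
  obtain ⟨hf2, hg2⟩ := hcon
  have hfn : f.support.Nonempty := Finset.card_pos.1 (by omega)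
  have hgn : g.support.Nonempty := Finset.card_pos.1 (by omega)
  obtain ⟨i1, hi1⟩ : ∃ i1, i1 = f.support.max' hfn := ⟨_, rfl⟩
  obtain ⟨i0, hi0⟩ : ∃ i0, i0 = f.support.min' hfn := ⟨_, rfl⟩
  obtain ⟨j1, hj1⟩ : ∃ j1, j1 = g.support.max' hgn := ⟨_, rfl⟩
  obtain ⟨j0, hj0⟩ : ∃ j0, j0 = g.support.min' hgn := ⟨_, rfl⟩
  have mi1 : f i1 ≠ 0 := Finsupp.mem_support_iff.1 (hi1 ▸ f.support.max'_mem hfn)
  have mi0 : f i0 ≠ 0 := Finsupp.mem_support_iff.1 (hi0 ▸ f.support.min'_mem hfn)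
  have mj1 : g j1 ≠ 0 := Finsupp.mem_support_iff.1 (hj1 ▸ g.support.max'_mem hgn)
  have mj0 : g j0 ≠ 0 := Finsupp.mem_support_iff.1 (hj0 ▸ g.support.min'_mem hgn)
  have li : ∀ i, f i ≠ 0 → i0 ≤ i ∧ i ≤ i1 := fun i hi => by
    rw [hi0, hi1]
    exact ⟨f.support.min'_le _ (Finsupp.mem_support_iff.2 hi), f.support.le_max' _ (Finsupp.mem_support_iff.2 hi)⟩
  have lj : ∀ j, g j ≠ 0 → j0 ≤ j ∧ j ≤ j1 := fun j hj => by
    rw [hj0, hj1]
    exact ⟨g.support.min'_le _ (Finsupp.mem_support_iff.2 hj), g.support.le_max' _ (Finsupp.mem_support_iff.2 hj)⟩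
  have ni : i0 < i1 := by
    have h1 := f.support.min'_lt_max'_of_card (by omega)
    rw [hi0, hi1]
    exact h1
  have nj : j0 < j1 := by
    have h1 := g.support.min'_lt_max'_of_card (by omega)
    rw [hj0, hj1]
    exact h1
  have ne0 : ∀ i j, f i ≠ 0 → g j ≠ 0 → r (i + j) ≠ 0 := by
    intro i j hi hj h0
    rw [hfg, Finsupp.sum, Finset.sum_eq_zero_iff] at h0
    have h1 := h0 i (Finsupp.mem_support_iff.2 hi)
    rw [add_sub_cancel_left] at h1
    exact mul_ne_zero hi hj h1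
  have rng : ∀ p, r p ≠ 0 → m - 1 ≤ p ∧ p ≤ m + 1 := by
    intro p hp
    by_contra hcon
    exact hp (rr p (by omega))
  have b1 := rng _ (ne0 i1 j1 mi1 mj1)
  have b0 := rng _ (ne0 i0 j0 mi0 mj0)
  have e1 : i1 = i0 + 1 := by omega
  have e2 : j1 = j0 + 1 := by omega
  have e3 : i0 + j0 = m - 1 := by omega
  have pf : f (i0 + 1) = f i0 := by
    have h1 := hf i0
    have h2 : a - i0 = i0 + 1 := by
      have h3 := li (a - i0) (by rw [hf]; exact mi0)
      have h4 := li (a - i1) (by rw [hf]; exact mi1)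
      omega
    rw [h2] at h1
    exact h1
  have pg : g (j0 + 1) = g j0 := by
    have h1 := hg j0
    have h2 : 2 * m - a - j0 = j0 + 1 := by
      have h3 := lj (2 * m - a - j0) (by rw [hg]; exact mj0)
      have h4 := lj (2 * m - a - j1) (by rw [hg]; exact mj1)
      omega
    rw [h2] at h1
    exact h1
  have sub : f.support ⊆ {i0, i0 + 1} := by
    intro i hi
    have h1 := li i (Finsupp.mem_support_iff.1 hi)
    simp only [Finset.mem_insert, Finset.mem_singleton]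
    omega
  have val : ∀ p, r p = f i0 * g (p - i0) + f i0 * g (p - (i0 + 1)) := by
    intro p
    have h1 : (f.sum fun i x => x * g (p - i)) = ∑ i ∈ ({i0, i0 + 1} : Finset ℤ), f i * g (p - i) :=
      Finsupp.sum_of_support_subset f sub (fun i x => x * g (p - i)) (fun i _ => Nat.zero_mul _)
    rw [hfg, h1, Finset.sum_pair (by omega), pf]
  have g0 : ∀ j, j ≠ j0 → j ≠ j0 + 1 → g j = 0 := by
    intro j h1 h2
    by_contra h3
    have h4 := lj j h3
    omega
  have v1 := val (m + 1)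
  have v0 := val m
  rw [r1, show m + 1 - i0 = j0 + 2 by omega, show m + 1 - (i0 + 1) = j0 + 1 by omega, pg,
    g0 (j0 + 2) (by omega) (by omega)] at v1
  rw [r0, show m - i0 = j0 + 1 by omega, show m - (i0 + 1) = j0 by omega, pg] at v0
  apply hh
  rw [v0, v1]
  ring

/-- The second numerical condition for `(s, h, s)` with `s` prime. -/
theorem num_three98 {N s h : ℕ} (hs : s.Prime) (hN : N = 2 * s + h) (hh : h + 2 * s ≠ s ^ 2) {d k : ℕ} (hd : 2 ≤ d)
    (hk : 2 ≤ k) (hNd : N = d ^ k) (hdv : d ^ (k - 1) ∣ s) : False := by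
  have h1 : d ∣ s := (dvd_pow_self d (by omega)).trans hdv
  have h2 : d = s := by
    rcases (Nat.dvd_prime hs).1 h1 with h | h
    · omega
    · exact h
  subst h2
  have h3 : k - 1 ≤ 1 := by
    have h4 : d ^ (k - 1) ∣ d ^ 1 := by rw [pow_one]; exact hdv
    exact (Nat.pow_dvd_pow_iff_le_right (by omega)).1 h4
  have h4 : k = 2 := by omega
  rw [h4] at hNd
  omega

end MH
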