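import Pool.Agent.Helper98.PF.HodgeW
import Pool.Agent.Helper98.PG.ExtMat
import Pool.Agent.Helper27.GS.Gap

/-!
Project PG (MP_b8862a_ag): the gap theorem for any levels (alternating form), and its Hodge side in all weights with any
number of Hodge numbers.
-/

set_option linter.unusedSectionVars false
set_option linter.unusedVariables false

open Matrix

namespace MH

variable {n : Type*} [Fintype n] [DecidableEq n]

/-- **The gap theorem for any levels**, alternating form. -/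
theorem gap_levelsS98 {Q' Qi : Matrix n n ℂ} (hQs : Q'ᵀ = -Q') (hQ1 : Q' * Qi = 1) (hQ2 : Qi * Q' = 1)
    {L : Submodule ℂ (Matrix n n ℂ)} (hbr : ∀ X ∈ L, ∀ Y ∈ L, X * Y - Y * X ∈ L)
    (hirr : ∀ W : Submodule ℂ (n → ℂ), (∀ X ∈ L, ∀ w ∈ W, X *ᵥ w ∈ W) → W = ⊥ ∨ W = ⊤)
    (hsk : ∀ X ∈ L, Xᵀ * Q' + Q' * X = 0) (hsmp : Smp L) {h : Matrix n n ℂ} (hh : h ∈ L)
    {E : ℝ → Matrix n n ℂ} {Λ : Finset ℝ} (hE : SD h E Λ) {t : ℝ} (ht : 0 < t) (htop : ∀ μ, E μ ≠ 0 → μ ≤ t)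
    (hmid : ∃ μ, μ ≠ t ∧ μ ≠ -t ∧ E μ ≠ 0) :
    Ld L h (2 * t) = ⊥ ∨ (Module.finrank ℂ (Ld L h (2 * t)) = 1 ∧ 3 ≤ (E t).rank) ∨
      ∀ X : Matrix n n ℂ, Xᵀ * Q' + Q' * X = 0 → X ∈ L := by
  classical
  obtain ⟨μ, m1, m2, m3⟩ := hmid
  have hne : Nonempty n := by
    by_contra h0
    rw [not_nonempty_iff] at h0
    exact m3 (Subsingleton.elim _ _)
  by_cases h0 : Ld L h (2 * t) = ⊥
  · exact Or.inl h0
  have h1 := ext_matrix98 (ε := -1) (by norm_num) (by rw [neg_one_smul]; exact hQs) hQ1 hQ2 hbr hirr hsk hh hE ht htop h0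
  have hbot : ∀ μ, E μ ≠ 0 → -t ≤ μ := by
    intro μ hμ
    have h2 : E (-μ) ≠ 0 := by
      intro h3
      apply hμ
      have h4 := E_symm98 hQ1 hQ2 (hsk h hh) hE (-μ)
      rw [neg_neg, h3, Matrix.transpose_zero, mul_zero, zero_mul] at h4
      exact h4
    have := htop _ h2
    linarith
  have h3 : E3_98 E t 0 ≠ 0 := by
    intro h4
    apply m3
    rw [E3_zero98] at h4
    have h5 : (1 - E t - E (-t)) * E μ = E μ := by
      rw [sub_mul, sub_mul, hE.mul, hE.mul, if_neg (Ne.symm m1), if_neg (Ne.symm m2), one_mul, sub_zero, sub_zero]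
    rw [← h5, h4, zero_mul]
  have key := gap_matrixS hQs hQ1 hQ2 hbr hirr hsk hsmp h1 (E3_sd98 hE ht) (E3_three98 E t) h3
  rw [E3_Ld98 hE ht htop hbot, E3_one98] at key
  exact key

/-- simplicity in a basis -/
theorem smp_cj98 {L : Submodule ℂ (Matrix n n ℂ)} {B Bi : Matrix n n ℂ} (h1 : B * Bi = 1) (h2 : Bi * B = 1)
    (hsmp : Smp (LBB27 L B Bi)) : Smp L := by
  intro K hK hid
  rcases hsmp (LBB27 K B Bi) (by
    intro X hX
    exact hK (mem_LBB27.1 hX)) (by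
    intro X hX Y hY
    rw [mem_LBB27, cj_sub, ← cj_mul h1, ← cj_mul h1]
    exact hid _ (mem_LBB27.1 hX) _ (mem_LBB27.1 hY)) with h5 | h5
  · left
    rw [eq_bot_iff]
    intro Y hY
    have e1 : cj B Bi Y ∈ LBB27 K B Bi := by
      rw [mem_LBB27, cj_cj h2]
      exact hY
    rw [h5, Submodule.mem_bot] at e1
    have e2 := congrArg (cj Bi B) e1
    rw [cj_cj h2, cj_zero] at e2
    exact e2
  · right
    apply le_antisymm hK
    intro Y hY
    have e1 : cj B Bi Y ∈ LBB27 K B Bi := by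
      rw [h5, mem_LBB27, cj_cj h2]
      exact hY
    rwa [mem_LBB27, cj_cj h2] at e1

variable {w : ℤ} {Q : Matrix n n ℚ} {S : Finset ℤ} {P : ℤ → Matrix n n ℂ}

theorem LB_eq98 {B Bi : Matrix n n ℂ} : LB Q S P B Bi = LBB27 (LH Q S P) B Bi := by
  ext x
  rw [mem_LB, mem_LBB27]

/-- the Lie algebra of the Mumford-Tate group is simple, if `h` lies in every ideal or in its complement -/
theorem IsHW.smp_or98 [Nonempty n] (H : IsHW w Q S P)
    (hEnd : ∀ A : Matrix n n ℚ, (∀ p, toC A * P p = P p * toC A) → ∃ c : ℚ, A = c • (1 : Matrix n n ℚ))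
    (hnum : ∀ d k : ℕ, 2 ≤ d → 2 ≤ k → Fintype.card n = d ^ k → (∀ p, d ^ (k - 1) ∣ (P p).rank) → False)
    {B Bi Qi : Matrix n n ℂ} (h1 : B * Bi = 1) (h2 : Bi * B = 1) (h3 : toC Q * Qi = 1) (h4 : Qi * toC Q = 1)
    (hM : Mw w Q S P = Bᴴ * B)
    (hor : ∀ K : Submodule ℂ (Matrix n n ℂ), IsI (LB Q S P B Bi) K →
      cj B Bi (hw w S P) ∈ K ∨ cj B Bi (hw w S P) ∈ pp (LB Q S P B Bi) K) : Smp (LB Q S P B Bi) := by
  classical
  have D := H.datW hEnd h1 h2 h3 h4 hM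
  have hPP : ∀ p, P p * P p = P p := fun p => by rw [H.mul, if_pos rfl]
  have r1 : ∀ p : ℤ, (EW w S P B Bi ((2 * p - w : ℤ) : ℝ)).rank = (P p).rank := fun p => by
    rw [H.EW_int, rank_cj h1 h2 (hPP p)]
  have hcjφ : ∀ (σ : ℂ ≃+* ℂ) (x : Matrix n n ℂ), cj Bi B (phi98 h1 h2 σ x) = (cj Bi B x).map σ := fun σ x => cj_cj h2 _
  have hcjψ : ∀ (σ : ℂ ≃+* ℂ) (x : Matrix n n ℂ), cj Bi B ((phi98 h1 h2 σ).symm x) = (cj Bi B x).map σ.symm :=
    fun σ x => cj_cj h2 _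
  rcases D.dich_or hor (phi98 h1 h2) (fun σ => σ) (by
      intro σ c x
      show cj B Bi ((cj Bi B (c • x)).map σ) = σ c • cj B Bi ((cj Bi B x).map σ)
      have e1 : (cj Bi B (c • x)).map σ = σ c • (cj Bi B x).map σ := by
        rw [cj_smul]
        ext i j
        simp
      rw [e1, cj_smul]) (by
      intro σ x hx
      rw [mem_LB, hcjφ]
      exact LH_aut σ hx) (by
      intro σ x hx
      rw [mem_LB, hcjψ]
      exact LH_aut σ.symm hx) (by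
      intro T hT
      have hdes := H.descent (T := cj Bi B T) (by
        intro σ
        have h5 := hT σ
        have h6 := congrArg (cj Bi B) h5
        rw [← cj_mul h1, ← cj_mul h1, hcjφ, cj_cj h2] at h6
        exact h6)
      obtain ⟨c, hc⟩ := EC_scalar98 hEnd hdes
      refine ⟨c, ?_⟩
      have h8 := congrArg (cj B Bi) hc
      rw [cj_cj h1, cj_smul, cj_one h1] at h8
      exact h8) with h5 | ⟨d, k, hd, hk, hcard, hdvd⟩
  · exact h5
  · exfalso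
    refine hnum d k hd hk hcard fun p => ?_
    rw [← r1]
    exact hdvd _

/-- the elements of the Lie algebra of the Mumford-Tate group of the extreme degree -/
theorem IsHW.ext_iff98 (H : IsHW w Q S P) {a : ℤ} (htop : ∀ p, P p ≠ 0 → p ≤ a) (hbot : ∀ p, P p ≠ 0 → w - a ≤ p)
    {B Bi : Matrix n n ℂ} (h1 : B * Bi = 1) (h2 : Bi * B = 1) (hM : Mw w Q S P = Bᴴ * B) {X : Matrix n n ℂ} :
    cj B Bi X ∈ Ld (LB Q S P B Bi) (cj B Bi (hw w S P)) (2 * ((2 * a - w : ℤ) : ℝ)) ↔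
      P a * X * P (w - a) = X ∧ X ∈ LH Q S P := by
  have S' := H.specW h1 h2 hM
  have hE : SD (cj B Bi (hw w S P)) (EW w S P B Bi) (LamW w S) := ⟨S'.mul, S'.sum, S'.eq⟩
  have hval : ∀ μ : ℝ, EW w S P B Bi μ ≠ 0 → ∃ p : ℤ, μ = ((2 * p - w : ℤ) : ℝ) ∧ P p ≠ 0 := by
    intro μ hμ
    by_cases h5 : ∃ p ∈ S, μ = ((2 * p - w : ℤ) : ℝ)
    · obtain ⟨p, -, rfl⟩ := h5
      refine ⟨p, rfl, fun h6 => hμ ?_⟩
      rw [H.EW_int, h6, cj_zero]
    · push Not at h5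
      exact absurd (EW_other B Bi fun p hp => (h5 p hp).symm) hμ
  have key := ext_shape98 (x := cj B Bi X) hE (t := ((2 * a - w : ℤ) : ℝ)) (by
    intro μ hμ
    obtain ⟨p, rfl, hp⟩ := hval μ hμ
    have := htop p hp
    exact_mod_cast (by linarith : 2 * p - w ≤ 2 * a - w)) (by
    intro μ hμ
    obtain ⟨p, rfl, hp⟩ := hval μ hμ
    have := hbot p hp
    exact_mod_cast (by linarith : -(2 * a - w) ≤ 2 * p - w))
  rw [mem_Ld, mem_LB, cj_cj h2, key, H.EW_int, show (-((2 * a - w : ℤ) : ℝ)) = ((2 * (w - a) - w : ℤ) : ℝ) by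
    push_cast; ring, H.EW_int, cj_mul h2, cj_mul h2, and_comm]
  refine and_congr_left fun _ => ⟨fun e1 => ?_, fun e1 => by rw [e1]⟩
  have e2 := congrArg (cj Bi B) e1
  rwa [cj_cj h2, cj_cj h2] at e2

/-- **The gap theorem** for the Lie algebra of the Mumford-Tate group, all weights, any number of Hodge numbers. -/
theorem IsHW.gap98 (H : IsHW w Q S P)
    (hEnd : ∀ A : Matrix n n ℚ, (∀ p, toC A * P p = P p * toC A) → ∃ c : ℚ, A = c • (1 : Matrix n n ℚ))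
    {a : ℤ} (ha : w < 2 * a) (htop : ∀ p, P p ≠ 0 → p ≤ a) (hmid : ∃ c, P c ≠ 0 ∧ c ≠ a ∧ c ≠ w - a)
    (hnum : ∀ d k : ℕ, 2 ≤ d → 2 ≤ k → Fintype.card n = d ^ k → (∀ p, d ^ (k - 1) ∣ (P p).rank) → False) :
    (∀ X : Matrix n n ℂ, P a * X * P (w - a) = X → X ∈ LH Q S P → X = 0) ∨
    ((Even w → Even (P a).rank) ∧ (Odd w → 3 ≤ (P a).rank) ∧ ∃ X₀ : Matrix n n ℂ, X₀ ≠ 0 ∧ ∀ X : Matrix n n ℂ,
      (P a * X * P (w - a) = X ∧ X ∈ LH Q S P ↔ ∃ c : ℂ, X = c • X₀)) ∨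
    ∀ X : Matrix n n ℂ, Xᵀ * toC Q + toC Q * X = 0 → X ∈ LH Q S P := by
  classical
  obtain ⟨c0, c1, c2, c3⟩ := hmid
  have hn : Nonempty n := by
    by_contra h0
    rw [not_nonempty_iff] at h0
    exact c1 (Subsingleton.elim _ _)
  have hbot : ∀ p, P p ≠ 0 → w - a ≤ p := by
    intro p hp
    have h5 : P (w - p) ≠ 0 := by
      rw [← H.conj]
      intro h6
      apply hp
      ext i j
      have h7 := congrFun (congrFun h6 i) j
      rw [Matrix.map_apply, Matrix.zero_apply] at h7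
      rw [Matrix.zero_apply]
      exact (map_eq_zero _).1 h7
    have := htop _ h5
    linarith
  by_cases hex : ∀ X : Matrix n n ℂ, P a * X * P (w - a) = X → X ∈ LH Q S P → X = 0
  · exact Or.inl hex
  right
  push Not at hex
  obtain ⟨X0, x1, x2, x3⟩ := hex
  obtain ⟨B, Bi, Qi, h1, h2, h3, h4, hM⟩ := H.exists_basis
  have D := H.datW hEnd h1 h2 h3 h4 hM
  have hPP : ∀ p, P p * P p = P p := fun p => by rw [H.mul, if_pos rfl]
  have hE : SD (cj B Bi (hw w S P)) (EW w S P B Bi) (LamW w S) := ⟨D.spec.mul, D.spec.sum, D.spec.eq⟩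
  have hval : ∀ μ : ℝ, EW w S P B Bi μ ≠ 0 → ∃ p : ℤ, μ = ((2 * p - w : ℤ) : ℝ) ∧ P p ≠ 0 := by
    intro μ hμ
    by_cases h5 : ∃ p ∈ S, μ = ((2 * p - w : ℤ) : ℝ)
    · obtain ⟨p, -, rfl⟩ := h5
      refine ⟨p, rfl, fun h6 => hμ ?_⟩
      rw [H.EW_int, h6, cj_zero]
    · push Not at h5
      exact absurd (EW_other B Bi fun p hp => (h5 p hp).symm) hμ
  have ht : (0 : ℝ) < ((2 * a - w : ℤ) : ℝ) := by exact_mod_cast (by linarith : 0 < 2 * a - w)
  have htop' : ∀ μ : ℝ, EW w S P B Bi μ ≠ 0 → μ ≤ ((2 * a - w : ℤ) : ℝ) := by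
    intro μ hμ
    obtain ⟨p, rfl, hp⟩ := hval μ hμ
    have := htop p hp
    exact_mod_cast (by linarith : 2 * p - w ≤ 2 * a - w)
  have hmid' : ∃ μ : ℝ, μ ≠ ((2 * a - w : ℤ) : ℝ) ∧ μ ≠ -((2 * a - w : ℤ) : ℝ) ∧ EW w S P B Bi μ ≠ 0 := by
    refine ⟨((2 * c0 - w : ℤ) : ℝ), ?_, ?_, ?_⟩
    · intro h5
      have h6 : 2 * c0 - w = 2 * a - w := by exact_mod_cast h5
      exact c2 (by linarith)
    · intro h5
      have h6 : 2 * c0 - w = -(2 * a - w) := by exact_mod_cast h5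
      exact c3 (by linarith)
    · rw [H.EW_int]
      intro h5
      apply c1
      have := congrArg (cj Bi B) h5
      rwa [cj_cj h2, cj_zero] at this
  have hne : Ld (LB Q S P B Bi) (cj B Bi (hw w S P)) (2 * ((2 * a - w : ℤ) : ℝ)) ≠ ⊥ := by
    rw [Submodule.ne_bot_iff]
    refine ⟨cj B Bi X0, (H.ext_iff98 htop hbot h1 h2 hM).2 ⟨x1, x2⟩, ?_⟩
    intro h5
    apply x3
    have := congrArg (cj Bi B) h5
    rwa [cj_cj h2, cj_zero] at this
  have hsmp := H.smp_or98 hEnd hnum h1 h2 h3 h4 hM fun K hK => D.h_mem_or_ext98 ht htop' hne hK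
  have b1 : Bᵀ * Biᵀ = 1 := by rw [← Matrix.transpose_mul, h2, Matrix.transpose_one]
  have b2 : Biᵀ * Bᵀ = 1 := by rw [← Matrix.transpose_mul, h1, Matrix.transpose_one]
  have f1 : Biᵀ * toC Q * Bi * (B * Qi * Bᵀ) = 1 := by
    calc Biᵀ * toC Q * Bi * (B * Qi * Bᵀ) = Biᵀ * toC Q * (Bi * B) * Qi * Bᵀ := by simp only [mul_assoc]
      _ = Biᵀ * (toC Q * Qi) * Bᵀ := by rw [h2, mul_one]; simp only [mul_assoc]
      _ = 1 := by rw [h3, mul_one, b2]
  have f2 : B * Qi * Bᵀ * (Biᵀ * toC Q * Bi) = 1 := by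
    calc B * Qi * Bᵀ * (Biᵀ * toC Q * Bi) = B * Qi * (Bᵀ * Biᵀ) * toC Q * Bi := by simp only [mul_assoc]
      _ = B * (Qi * toC Q) * Bi := by rw [b1, mul_one]; simp only [mul_assoc]
      _ = 1 := by rw [h4, mul_one, h1]
  have hskc : ∀ X : Matrix n n ℂ, Xᵀ * toC Q + toC Q * X = 0 →
      (cj B Bi X)ᵀ * (Biᵀ * toC Q * Bi) + (Biᵀ * toC Q * Bi) * cj B Bi X = 0 := by
    intro X hX
    have e1 : (cj B Bi X)ᵀ * (Biᵀ * toC Q * Bi) = Biᵀ * (Xᵀ * toC Q) * Bi := by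
      unfold cj
      rw [Matrix.transpose_mul, Matrix.transpose_mul]
      calc Biᵀ * (Xᵀ * Bᵀ) * (Biᵀ * toC Q * Bi) = Biᵀ * Xᵀ * (Bᵀ * Biᵀ) * toC Q * Bi := by simp only [mul_assoc]
        _ = _ := by rw [b1, mul_one]; simp only [mul_assoc]
    have e2 : (Biᵀ * toC Q * Bi) * cj B Bi X = Biᵀ * (toC Q * X) * Bi := by
      unfold cj
      calc Biᵀ * toC Q * Bi * (B * X * Bi) = Biᵀ * toC Q * (Bi * B) * X * Bi := by simp only [mul_assoc]
        _ = _ := by rw [h2, mul_one]; simp only [mul_assoc]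
    rw [e1, e2, ← Matrix.add_mul, ← Matrix.mul_add, hX, mul_zero, zero_mul]
  have hsk : ∀ Y ∈ LB Q S P B Bi, Yᵀ * (Biᵀ * toC Q * Bi) + (Biᵀ * toC Q * Bi) * Y = 0 := by
    intro Y hY
    have e1 := hskc _ (mem_LB.1 hY).1
    rwa [cj_cj h1] at e1
  have hone : Module.finrank ℂ (Ld (LB Q S P B Bi) (cj B Bi (hw w S P)) (2 * ((2 * a - w : ℤ) : ℝ))) = 1 →
      ∀ X : Matrix n n ℂ, (P a * X * P (w - a) = X ∧ X ∈ LH Q S P ↔ ∃ c : ℂ, X = c • X0) := by
    intro h5 X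
    constructor
    · intro hX
      obtain ⟨v, hv, hv'⟩ := finrank_eq_one_iff'.1 h5
      obtain ⟨c, hc⟩ := hv' ⟨_, (H.ext_iff98 htop hbot h1 h2 hM).2 hX⟩
      obtain ⟨d, hd⟩ := hv' ⟨_, (H.ext_iff98 htop hbot h1 h2 hM).2 ⟨x1, x2⟩⟩
      have hc' : c • (v : Matrix n n ℂ) = cj B Bi X := congrArg Subtype.val hc
      have hd' : d • (v : Matrix n n ℂ) = cj B Bi X0 := congrArg Subtype.val hd
      have hd0 : d ≠ 0 := by
        intro h6
        rw [h6, zero_smul] at hd'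
        apply x3
        have := congrArg (cj Bi B) hd'.symm
        rwa [cj_cj h2, cj_zero] at this
      refine ⟨c * d⁻¹, ?_⟩
      have e1 : cj B Bi X = (c * d⁻¹) • cj B Bi X0 := by
        rw [← hc', ← hd', smul_smul, mul_assoc, inv_mul_cancel₀ hd0, mul_one]
      have e2 := congrArg (cj Bi B) e1
      rwa [cj_smul, cj_cj h2, cj_cj h2] at e2
    · rintro ⟨c, rfl⟩
      refine ⟨?_, (LH Q S P).smul_mem _ x2⟩
      rw [mul_smul_comm, smul_mul_assoc, x1]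
  have r1 : (EW w S P B Bi ((2 * a - w : ℤ) : ℝ)).rank = (P a).rank := by
    rw [H.EW_int, rank_cj h1 h2 (hPP a)]
  have hfull : (∀ X : Matrix n n ℂ, Xᵀ * (Biᵀ * toC Q * Bi) + (Biᵀ * toC Q * Bi) * X = 0 → X ∈ LB Q S P B Bi) →
      ∀ X : Matrix n n ℂ, Xᵀ * toC Q + toC Q * X = 0 → X ∈ LH Q S P := by
    intro h5 X hX
    have h6 := h5 _ (hskc X hX)
    rwa [mem_LB, cj_cj h2] at h6
  rcases Int.even_or_odd w with hw | hw
  · have hF : (Biᵀ * toC Q * Bi)ᵀ = Biᵀ * toC Q * Bi := by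
      rw [Matrix.transpose_mul, Matrix.transpose_mul, Matrix.transpose_transpose, H.Q_symm, hw.neg_one_zpow, one_smul,
        mul_assoc]
    rcases gap_levels98 hF f1 f2 (L := LB Q S P B Bi) D.br (fun W hW => D.stable W hW) hsk hsmp D.mem hE ht htop'
      hmid' with h5 | ⟨h5, h6⟩ | h5
    · exact absurd h5 hne
    · left
      rw [r1] at h6
      exact ⟨fun _ => h6, fun h7 => absurd hw (Int.not_even_iff_odd.2 h7), X0, x3, hone h5⟩
    · right
      exact hfull h5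
  · have hF : (Biᵀ * toC Q * Bi)ᵀ = -(Biᵀ * toC Q * Bi) := by
      rw [Matrix.transpose_mul, Matrix.transpose_mul, Matrix.transpose_transpose, H.Q_symm, hw.neg_one_zpow,
        neg_one_smul, neg_mul, mul_neg, mul_assoc]
    rcases gap_levelsS98 hF f1 f2 (L := LB Q S P B Bi) D.br (fun W hW => D.stable W hW) hsk hsmp D.mem hE ht htop'
      hmid' with h5 | ⟨h5, h6⟩ | h5
    · exact absurd h5 hne
    · left
      rw [r1] at h6
      exact ⟨fun h7 => absurd h7 (Int.not_even_iff_odd.2 hw), fun _ => h6, X0, x3, hone h5⟩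
    · right
      exact hfull h5

end MH
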